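import Pool.Agent.Helper74.LY.Cubic

/-!
Normal form of a plane cubic with a smooth flex; every nonsingular plane cubic has one.
-/

open MvPolynomial

namespace LCY74

/-- dot product with explicit coordinates -/
def dot3 (u v : Fin 3 → ℂ) : ℂ := u 0 * v 0 + u 1 * v 1 + u 2 * v 2

/-- the bilinear form of the Hessian at `p` -/
def hq (a : Fin 10 → ℂ) (p u v : Fin 3 → ℂ) : ℂ :=
  u 0 * (hess a p 0 0 * v 0 + hess a p 0 1 * v 1 + hess a p 0 2 * v 2)
    + u 1 * (hess a p 1 0 * v 0 + hess a p 1 1 * v 1 + hess a p 1 2 * v 2)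
    + u 2 * (hess a p 2 0 * v 0 + hess a p 2 1 * v 1 + hess a p 2 2 * v 2)

theorem cub_expand (a : Fin 10 → ℂ) (k p w : Fin 3 → ℂ) (x y z : ℂ) :
    cub a (x • k + y • p + z • w) = x ^ 3 * cub a k + y ^ 3 * cub a p + z ^ 3 * cub a w
      + x ^ 2 * y * (hq a p k k / 2) + x * y ^ 2 * dot3 (grad a p) k
      + y ^ 2 * z * dot3 (grad a p) w + x * y * z * hq a p k w
      + y * z ^ 2 * (hq a p w w / 2) + x ^ 2 * z * dot3 (grad a k) w
      + x * z ^ 2 * dot3 (grad a w) k := by
  simp [cub, hess, grad, hq, dot3]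
  ring

/-- Normal form from a smooth flex. -/
theorem normal_form (a : Fin 10 → ℂ) (k p : Fin 3 → ℂ) (hp : p ≠ 0) (hp0 : cub a p = 0)
    (hg : grad a p ≠ 0) (hk1 : dot3 (grad a p) k = 0) (hk2 : hq a p k k = 0)
    (hk3 : cub a k ≠ 0) :
    ∃ (M : Matrix (Fin 3) (Fin 3) ℂ) (c A B : ℂ), M.det ≠ 0 ∧ c ≠ 0 ∧
      M.mulVec ![0, 1, 0] = p ∧
      (∀ x y : ℂ, ∃ u v : ℂ, M.mulVec ![x, y, 0] = u • k + v • p) ∧
      ∀ x : Fin 3 → ℂ, cub a (M.mulVec x) =
        c * (x 1 ^ 2 * x 2 - x 0 ^ 3 - A * x 0 * x 2 ^ 2 - B * x 2 ^ 3) := by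
  have hw : ∃ w, dot3 (grad a p) w ≠ 0 := by
    by_contra hcon
    push Not at hcon
    apply hg
    funext i
    have := hcon (Pi.single i 1)
    fin_cases i <;> simpa [dot3] using this
  obtain ⟨w, hw⟩ := hw
  set s := dot3 (grad a p) w with hs
  set b := hq a p k w with hb
  set q := hq a p w w / 2 with hq'
  set e := dot3 (grad a k) w with he
  set r := dot3 (grad a w) k with hr
  set u := cub a w with hu
  set f := cub a k with hf
  set e' := e - b ^ 2 / (4 * s) with he'
  set r' := r - b * q / (2 * s) with hr'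
  set u' := u - q ^ 2 / (4 * s) with hu'
  set ε := e' / (3 * f) with hε
  set δ := - f / s with hδ
  set A' := 3 * f * ε ^ 2 - 2 * e' * ε + r' with hA'
  set C' := - f * ε ^ 3 + e' * ε ^ 2 - r' * ε + u' with hC'
  have hδ0 : δ ≠ 0 := by
    rw [hδ]
    exact div_ne_zero (neg_ne_zero.2 hk3) hw
  let M : Matrix (Fin 3) (Fin 3) ℂ := Matrix.of fun i j =>
    (![k i - b / (2 * s) * p i, p i,
      δ * (w i - ε * k i + (b * ε - q) / (2 * s) * p i)] : Fin 3 → ℂ) j
  have hM : ∀ x : Fin 3 → ℂ, M.mulVec x = (x 0 - ε * δ * x 2) • k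
      + (x 1 - b / (2 * s) * x 0 + δ * (b * ε - q) / (2 * s) * x 2) • p + (δ * x 2) • w := by
    intro x
    funext i
    simp only [M, Matrix.mulVec, dotProduct, Fin.sum_univ_three, Matrix.of_apply, Pi.add_apply,
      Pi.smul_apply, smul_eq_mul]
    simp
    ring
  have hind : ∀ x y z : ℂ, x • k + y • p + z • w = 0 → x = 0 ∧ y = 0 ∧ z = 0 := by
    intro x y z h
    have h1 : dot3 (grad a p) (x • k + y • p + z • w) = 0 := by
      rw [h]; simp [dot3]
    have h2 : dot3 (grad a p) (x • k + y • p + z • w) = x * dot3 (grad a p) k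
        + y * dot3 (grad a p) p + z * s := by
      rw [hs]; simp [dot3]; ring
    have h3 : dot3 (grad a p) p = 0 := by
      have := euler_zero a p
      rw [hp0] at this
      simpa [dot3] using this
    rw [h2, hk1, h3] at h1
    have hz : z = 0 := by
      have : z * s = 0 := by linear_combination h1
      exact (mul_eq_zero.1 this).resolve_right hw
    rw [hz, zero_smul, add_zero] at h
    have h4 : cub a (x • k + y • p + (0 : ℂ) • w) = 0 := by
      rw [zero_smul, add_zero, h]; simp [cub]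
    rw [cub_expand, hp0, hk1, hk2] at h4
    have hx : x = 0 := by
      have : x ^ 3 * f = 0 := by linear_combination h4
      have := (mul_eq_zero.1 this).resolve_right hk3
      exact pow_eq_zero_iff (by norm_num) |>.1 this
    rw [hx, zero_smul, zero_add] at h
    have hy : y = 0 := (smul_eq_zero.1 h).resolve_right hp
    exact ⟨hx, hy, hz⟩
  refine ⟨M, -f, A' * δ ^ 2 / f, C' * δ ^ 3 / f, ?_, neg_ne_zero.2 hk3, ?_, ?_, ?_⟩
  · intro hdet
    obtain ⟨v, hv, hv0⟩ := Matrix.exists_mulVec_eq_zero_iff.2 hdet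
    rw [hM] at hv0
    obtain ⟨h1, h2, h3⟩ := hind _ _ _ hv0
    have hv2 : v 2 = 0 := (mul_eq_zero.1 h3).resolve_left hδ0
    have hv0' : v 0 = 0 := by rw [hv2] at h1; linear_combination h1
    have hv1 : v 1 = 0 := by rw [hv2, hv0'] at h2; linear_combination h2
    apply hv
    funext i
    fin_cases i
    · exact hv0'
    · exact hv1
    · exact hv2
  · rw [hM]
    simp
  · intro x y
    refine ⟨x, y - b / (2 * s) * x, ?_⟩
    rw [hM]
    simp
  · intro x
    rw [hM, cub_expand, hp0, hk1, hk2]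
    simp only [← hs, ← hb, ← hq', ← he, ← hr, ← hu, ← hf]
    rw [hA', hC', hδ]
    have hs0 : s ≠ 0 := hw
    have hε' : 3 * f * ε = e' := by rw [hε]; field_simp
    have hee : e = e' + b ^ 2 / (4 * s) := by rw [he']; ring
    have hrr : r = r' + b * q / (2 * s) := by rw [hr']; ring
    have huu : u = u' + q ^ 2 / (4 * s) := by rw [hu']; ring
    rw [hee, hrr, huu, ← hε']
    clear_value e' r' u' ε s b q f
    field_simp
    ring

end LCY74
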