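import Pool.Agent.Helper74.LY.Wei

/-!
Every nonsingular plane cubic has a flex, hence a Weierstrass normal form.
-/

open MvPolynomial

namespace LCY74

/-- A binary quadratic form over the complex numbers has a nontrivial zero. -/
theorem binary_zero (A B D : ℂ) : ∃ s t : ℂ, (s ≠ 0 ∨ t ≠ 0) ∧
    s ^ 2 * A + s * t * B + t ^ 2 * D = 0 := by
  by_cases hA : A = 0
  · exact ⟨1, 0, Or.inl one_ne_zero, by rw [hA]; ring⟩
  · obtain ⟨d, hd⟩ := IsAlgClosed.exists_pow_nat_eq (B ^ 2 - 4 * A * D) (n := 2) (by norm_num)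
    refine ⟨(-B + d) / (2 * A), 1, Or.inr one_ne_zero, ?_⟩
    field_simp
    linear_combination hd

theorem exists_flex (a : Fin 10 → ℂ) (hns : ∀ p : Fin 3 → ℂ, p ≠ 0 → cub a p = 0 →
    grad a p ≠ 0) : ∃ k p : Fin 3 → ℂ, p ≠ 0 ∧ cub a p = 0 ∧ grad a p ≠ 0 ∧
      dot3 (grad a p) k = 0 ∧ hq a p k k = 0 ∧ cub a k ≠ 0 := by
  obtain ⟨p, hp, hp0, hdet⟩ := exists_hess_zero a
  have hg := hns p hp hp0
  obtain ⟨k, hk, hk0⟩ := Matrix.exists_mulVec_eq_zero_iff.2 hdet
  have e0 : hess a p 0 0 * k 0 + hess a p 0 1 * k 1 + hess a p 0 2 * k 2 = 0 := by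
    have := congrFun hk0 0
    simpa [Matrix.mulVec, dotProduct, Fin.sum_univ_three] using this
  have e1 : hess a p 1 0 * k 0 + hess a p 1 1 * k 1 + hess a p 1 2 * k 2 = 0 := by
    have := congrFun hk0 1
    simpa [Matrix.mulVec, dotProduct, Fin.sum_univ_three] using this
  have e2 : hess a p 2 0 * k 0 + hess a p 2 1 * k 1 + hess a p 2 2 * k 2 = 0 := by
    have := congrFun hk0 2
    simpa [Matrix.mulVec, dotProduct, Fin.sum_univ_three] using this
  have hk1 : dot3 (grad a p) k = 0 := by
    have := euler_grad a p k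
    rw [e0, e1, e2] at this
    unfold dot3
    linear_combination this / 2
  have hk2 : hq a p k k = 0 := by
    unfold hq
    rw [e0, e1, e2]
    ring
  have hgp : dot3 (grad a p) p = 0 := by
    have := euler_zero a p
    rw [hp0] at this
    simpa [dot3] using this
  -- k is not a multiple of p
  have hkp : ∀ x y : ℂ, x • k + y • p = 0 → x = 0 ∧ y = 0 := by
    intro x y h
    by_cases hx : x = 0
    · rw [hx, zero_smul, zero_add] at h
      exact ⟨hx, (smul_eq_zero.1 h).resolve_right hp⟩
    · exfalso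
      by_cases hy : y = 0
      · rw [hy, zero_smul, add_zero] at h
        exact hk ((smul_eq_zero.1 h).resolve_left hx)
      · apply hg
        have hpk : ∀ i, p i = - (x / y) * k i := by
          intro i
          have := congrFun h i
          simp only [Pi.add_apply, Pi.smul_apply, smul_eq_mul, Pi.zero_apply] at this
          field_simp
          linear_combination this
        have hz : ∀ v : Fin 3 → ℂ, dot3 (grad a p) v = 0 := by
          intro v
          have h1 : 2 * dot3 (grad a p) v =
              v 0 * (hess a p 0 0 * p 0 + hess a p 0 1 * p 1 + hess a p 0 2 * p 2)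
              + v 1 * (hess a p 1 0 * p 0 + hess a p 1 1 * p 1 + hess a p 1 2 * p 2)
              + v 2 * (hess a p 2 0 * p 0 + hess a p 2 1 * p 1 + hess a p 2 2 * p 2) := by
            simp [dot3, hess, grad]
            ring
          have h2 : ∀ i, hess a p i 0 * p 0 + hess a p i 1 * p 1 + hess a p i 2 * p 2 =
              - (x / y) * (hess a p i 0 * k 0 + hess a p i 1 * k 1 + hess a p i 2 * k 2) := by
            intro i
            have q0 := hpk 0
            have q1 := hpk 1
            have q2 := hpk 2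
            linear_combination (hess a p i 0) * q0 + (hess a p i 1) * q1 + (hess a p i 2) * q2
          rw [h2, h2, h2, e0, e1, e2] at h1
          linear_combination h1 / 2
        funext i
        have := hz (Pi.single i 1)
        fin_cases i <;> simpa [dot3] using this
  refine ⟨k, p, hp, hp0, hg, hk1, hk2, ?_⟩
  intro hk3
  have hw : ∃ w, dot3 (grad a p) w ≠ 0 := by
    by_contra hcon
    push Not at hcon
    apply hg
    funext i
    have := hcon (Pi.single i 1)
    fin_cases i <;> simpa [dot3] using this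
  obtain ⟨w, hw⟩ := hw
  obtain ⟨s, t, hst, hq0⟩ := binary_zero (dot3 (grad a k) w) (hq a p k w) (dot3 (grad a p) w)
  set x : Fin 3 → ℂ := s • k + t • p with hx
  have hx0 : x ≠ 0 := by
    intro h
    obtain ⟨h1, h2⟩ := hkp s t h
    rcases hst with h | h
    · exact h h1
    · exact h h2
  have hcx : cub a x = 0 := by
    have := cub_expand a k p w s t 0
    rw [zero_smul, add_zero, ← hx] at this
    rw [this, hk3, hp0, hk1, hk2]
    ring
  have hgx := hns x hx0 hcx
  apply hgx
  have d1 : dot3 (grad a x) w = s ^ 2 * dot3 (grad a k) w + s * t * hq a p k w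
      + t ^ 2 * dot3 (grad a p) w := by
    rw [hx]; simp [dot3, grad, hq, hess]; ring
  have d2 : dot3 (grad a x) k = s ^ 2 * (3 * cub a k) + s * t * hq a p k k
      + t ^ 2 * dot3 (grad a p) k := by
    rw [hx]; simp [dot3, grad, hq, hess, cub]; ring
  have d3 : dot3 (grad a x) p = s ^ 2 * (hq a p k k / 2) + 2 * s * t * dot3 (grad a p) k
      + t ^ 2 * (3 * cub a p) := by
    rw [hx]; simp [dot3, grad, hq, hess, cub]; ring
  rw [hq0] at d1
  rw [hk3, hk2, hk1] at d2
  rw [hk2, hk1, hp0] at d3
  simp only [mul_zero, add_zero, zero_div] at d2 d3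
  by_contra hne
  have hdetR : (Matrix.of ![k, p, w]).det = 0 := by
    apply Matrix.exists_mulVec_eq_zero_iff.1
    refine ⟨grad a x, hne, ?_⟩
    funext i
    fin_cases i
    · have : k 0 * grad a x 0 + k 1 * grad a x 1 + k 2 * grad a x 2 = 0 := by
        unfold dot3 at d2
        linear_combination d2
      simpa [Matrix.mulVec, dotProduct, Fin.sum_univ_three] using this
    · have : p 0 * grad a x 0 + p 1 * grad a x 1 + p 2 * grad a x 2 = 0 := by
        unfold dot3 at d3
        linear_combination d3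
      simpa [Matrix.mulVec, dotProduct, Fin.sum_univ_three] using this
    · have : w 0 * grad a x 0 + w 1 * grad a x 1 + w 2 * grad a x 2 = 0 := by
        unfold dot3 at d1
        linear_combination d1
      simpa [Matrix.mulVec, dotProduct, Fin.sum_univ_three] using this
  rw [← Matrix.det_transpose] at hdetR
  obtain ⟨v, hv, hv0⟩ := Matrix.exists_mulVec_eq_zero_iff.2 hdetR
  have hcomb : v 0 • k + v 1 • p + v 2 • w = 0 := by
    funext i
    have := congrFun hv0 i
    simp [Matrix.mulVec, dotProduct, Fin.sum_univ_three] at this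
    simp only [Pi.add_apply, Pi.smul_apply, smul_eq_mul, Pi.zero_apply]
    linear_combination this
  have h1 : dot3 (grad a p) (v 0 • k + v 1 • p + v 2 • w) = 0 := by
    rw [hcomb]; simp [dot3]
  have h2 : dot3 (grad a p) (v 0 • k + v 1 • p + v 2 • w) = v 0 * dot3 (grad a p) k
      + v 1 * dot3 (grad a p) p + v 2 * dot3 (grad a p) w := by
    simp [dot3]; ring
  rw [h2, hk1, hgp] at h1
  have hv2 : v 2 = 0 := by
    have : v 2 * dot3 (grad a p) w = 0 := by linear_combination h1
    exact (mul_eq_zero.1 this).resolve_right hw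
  rw [hv2, zero_smul, add_zero] at hcomb
  obtain ⟨h3, h4⟩ := hkp _ _ hcomb
  apply hv
  funext i
  fin_cases i
  · exact h3
  · exact h4
  · exact hv2

/-- Every nonsingular plane cubic has a Weierstrass normal form. -/
theorem weierstrass (F : MvPolynomial (Fin 3) ℂ) (hF : F.IsHomogeneous 3)
    (hns : ∀ p : Fin 3 → ℂ, p ≠ 0 → eval p F = 0 → ∃ i, eval p (pderiv i F) ≠ 0) :
    ∃ (M : Matrix (Fin 3) (Fin 3) ℂ) (c A B : ℂ), M.det ≠ 0 ∧ c ≠ 0 ∧
      ∀ x : Fin 3 → ℂ, eval (M.mulVec x) F =
        c * (x 1 ^ 2 * x 2 - x 0 ^ 3 - A * x 0 * x 2 ^ 2 - B * x 2 ^ 3) := by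
  obtain ⟨a, ha⟩ := cubic_coeffs F hF
  have hev : ∀ p, eval p F = cub a p := by
    intro p
    rw [ha]
    simp [cub]
  have hgr : ∀ p i, eval p (pderiv i F) = grad a p i := by
    intro p i
    rw [ha]
    fin_cases i <;> simp [grad, pderiv_X] <;> ring
  obtain ⟨k, p, h1, h2, h3, h4, h5, h6⟩ := exists_flex a (by
    intro p hp hp0 hgz
    obtain ⟨i, hi⟩ := hns p hp (by rw [hev, hp0])
    rw [hgr, hgz] at hi
    exact hi rfl)
  obtain ⟨M, c, A, B, hM, hc, _, _, hx⟩ := normal_form a k p h1 h2 h3 h4 h5 h6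
  exact ⟨M, c, A, B, hM, hc, fun x => by rw [hev, hx]⟩

end LCY74
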