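import Pool.Agent.Helper74.LY.PT
import Pool.Agent.Helper36.LCY.ValAt
import Pool.Agent.Helper84.LCY.Place

/-!
Row P2N of MP_f7e214_ag: the plane minus a cubic, tangent lines.
-/

open Polynomial LCY LCY.H36

namespace LCY74

noncomputable section

theorem ev_const_left {K : Type} [Field K] [Algebra ℂ K] (a : ℂ) (η : K) (g : ℂ[X][X]) :
    ev (algebraMap ℂ K a) η g = aeval η (g.map (evalRingHom a)) := by
  rw [ev_apply, aeval_def, eval₂_map]
  congr 1
  refine RingHom.ext fun p => ?_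
  show aeval (algebraMap ℂ K a) p = algebraMap ℂ K (eval a p)
  rw [aeval_algebraMap_apply]
  rfl

section Tan

variable {K : Type} [Field K] [Algebra ℂ K] {A B : ℂ} {u w : K}

/-- The slope of the tangent line. -/
def sl (A : ℂ) (u w : K) : K := (3 * u ^ 2 + algebraMap ℂ K A) / (2 * w)

variable (hu : ∀ p : ℂ[X], p ≠ 0 → aeval u p ≠ 0)
  (hw : w ^ 2 = u ^ 3 + algebraMap ℂ K A * u + algebraMap ℂ K B)

theorem two_ne (K : Type) [Field K] [Algebra ℂ K] : (2 : K) ≠ 0 := by
  have h : algebraMap ℂ K 2 ≠ 0 := by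
    rw [Ne, map_eq_zero]; norm_num
  rwa [map_ofNat] at h

include hu hw

theorem w_ne : w ≠ 0 := by
  intro h
  have h1 : aeval u (X ^ 3 + C A * X + C B : ℂ[X]) = 0 := by
    simp only [map_add, map_mul, map_pow, aeval_X, aeval_C]
    rw [← hw, h]; ring
  refine hu _ ?_ h1
  intro h0
  have : (X ^ 3 + C A * X + C B : ℂ[X]).natDegree = 3 := by compute_degree!
  rw [h0] at this
  simp at this

theorem sl_mul : sl A u w * (2 * w) = 3 * u ^ 2 + algebraMap ℂ K A := by
  unfold sl
  exact div_mul_cancel₀ _ (mul_ne_zero (two_ne K) (w_ne hu hw))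

theorem no_pt (ξ η : ℂ) : algebraMap ℂ K η ≠ w + sl A u w * (algebraMap ℂ K ξ - u) := by
  intro h
  have h1 := sl_mul hu hw
  have h2 : 2 * w * algebraMap ℂ K η = 2 * w ^ 2 +
      (3 * u ^ 2 + algebraMap ℂ K A) * (algebraMap ℂ K ξ - u) := by
    rw [h]; linear_combination (algebraMap ℂ K ξ - u) * h1
  have h3 : aeval u (X ^ 6 - C (6 * ξ) * X ^ 5 + C (9 * ξ ^ 2 - 2 * A) * X ^ 4 +
      C (-2 * (2 * B + A * ξ) + 6 * ξ * A - 4 * η ^ 2) * X ^ 3 +
      C (A ^ 2 + 6 * ξ * (2 * B + A * ξ)) * X ^ 2 +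
      C (2 * A * (2 * B + A * ξ) - 4 * η ^ 2 * A) * X +
      C ((2 * B + A * ξ) ^ 2 - 4 * η ^ 2 * B) : ℂ[X]) = 0 := by
    simp only [map_add, map_mul, map_pow, aeval_X, aeval_C, map_sub, map_neg, map_ofNat]
    have h4 : (2 * w * algebraMap ℂ K η) ^ 2 = (2 * w ^ 2 +
      (3 * u ^ 2 + algebraMap ℂ K A) * (algebraMap ℂ K ξ - u)) ^ 2 := by rw [h2]
    linear_combination (-1 : K) * h4 + (4 * algebraMap ℂ K η ^ 2
      - 4 * (w ^ 2 + (u ^ 3 + algebraMap ℂ K A * u + algebraMap ℂ K B))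
      - 4 * (3 * u ^ 2 + algebraMap ℂ K A) * (algebraMap ℂ K ξ - u)) * hw
  refine hu _ ?_ h3
  intro h0
  have h5 := congrArg (fun p : ℂ[X] => p.natDegree) h0
  have h6 : (X ^ 6 - C (6 * ξ) * X ^ 5 + C (9 * ξ ^ 2 - 2 * A) * X ^ 4 +
      C (-2 * (2 * B + A * ξ) + 6 * ξ * A - 4 * η ^ 2) * X ^ 3 +
      C (A ^ 2 + 6 * ξ * (2 * B + A * ξ)) * X ^ 2 +
      C (2 * A * (2 * B + A * ξ) - 4 * η ^ 2 * A) * X +
      C ((2 * B + A * ξ) ^ 2 - 4 * η ^ 2 * B) : ℂ[X]).natDegree = 6 := by compute_degree!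
  simp only [natDegree_zero] at h5
  omega

theorem sl_sq : sl A u w ^ 2 * (4 * (u ^ 3 + algebraMap ℂ K A * u + algebraMap ℂ K B)) =
    (3 * u ^ 2 + algebraMap ℂ K A) ^ 2 := by
  have h1 := sl_mul hu hw
  rw [← h1, ← hw]; ring

theorem sl_not_const (c : ℂ) : sl A u w ≠ algebraMap ℂ K c := by
  intro h
  have h1 := sl_sq hu hw
  rw [h] at h1
  have h3 : aeval u (C 9 * X ^ 4 - C (4 * c ^ 2) * X ^ 3 + C (6 * A) * X ^ 2 -
      C (4 * c ^ 2 * A) * X + C (A ^ 2 - 4 * c ^ 2 * B) : ℂ[X]) = 0 := by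
    simp only [map_add, map_mul, map_pow, aeval_X, aeval_C, map_sub, map_neg, map_ofNat]
    linear_combination (-1 : K) * h1
  refine hu _ ?_ h3
  intro h0
  have h5 := congrArg (fun p : ℂ[X] => p.natDegree) h0
  have h6 : (C 9 * X ^ 4 - C (4 * c ^ 2) * X ^ 3 + C (6 * A) * X ^ 2 -
      C (4 * c ^ 2 * A) * X + C (A ^ 2 - 4 * c ^ 2 * B) : ℂ[X]).natDegree = 4 := by
    compute_degree!
  simp only [natDegree_zero] at h5
  omega

theorem sl_ne : sl A u w ≠ 0 := by
  have := sl_not_const hu hw 0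
  rwa [map_zero] at this

/-- The difference of the first coordinates of the second intersection point and of the point
of contact. -/
theorem del_ne : sl A u w ^ 2 - 3 * u ≠ 0 := by
  intro h
  have h1 := sl_sq hu hw
  have h2 : sl A u w ^ 2 = 3 * u := by linear_combination h
  rw [h2] at h1
  have h3 : aeval u (C 3 * X ^ 4 + C (6 * A) * X ^ 2 +
      C (12 * B) * X + C (- A ^ 2) : ℂ[X]) = 0 := by
    simp only [map_add, map_mul, map_pow, aeval_X, aeval_C, map_sub, map_neg, map_ofNat]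
    linear_combination h1
  refine hu _ ?_ h3
  intro h0
  have h5 := congrArg (fun p : ℂ[X] => p.natDegree) h0
  have h6 : (C 3 * X ^ 4 + C (6 * A) * X ^ 2 +
      C (12 * B) * X + C (- A ^ 2) : ℂ[X]).natDegree = 4 := by
    compute_degree!
  simp only [natDegree_zero] at h5
  omega

theorem u1_not_const (c : ℂ) : sl A u w ^ 2 - 2 * u ≠ algebraMap ℂ K c := by
  intro h
  have h1 := sl_sq hu hw
  have h2 : sl A u w ^ 2 = 2 * u + algebraMap ℂ K c := by linear_combination h
  rw [h2] at h1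
  have h3 : aeval u (X ^ 4 - C (4 * c) * X ^ 3 - C (2 * A) * X ^ 2 -
      C (4 * c * A + 8 * B) * X + C (A ^ 2 - 4 * c * B) : ℂ[X]) = 0 := by
    simp only [map_add, map_mul, map_pow, aeval_X, aeval_C, map_sub, map_neg, map_ofNat]
    linear_combination (-1 : K) * h1
  refine hu _ ?_ h3
  intro h0
  have h5 := congrArg (fun p : ℂ[X] => p.natDegree) h0
  have h6 : (X ^ 4 - C (4 * c) * X ^ 3 - C (2 * A) * X ^ 2 -
      C (4 * c * A + 8 * B) * X + C (A ^ 2 - 4 * c * B) : ℂ[X]).natDegree = 4 := by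
    compute_degree!
  simp only [natDegree_zero] at h5
  omega

/-- The equation of the cubic on the tangent line. -/
theorem cubic_on_line (t : K) :
    (w + sl A u w * t) ^ 2 - ((u + t) ^ 3 + algebraMap ℂ K A * (u + t) + algebraMap ℂ K B) =
      t ^ 2 * (sl A u w ^ 2 - 3 * u - t) := by
  have h1 := sl_mul hu hw
  linear_combination hw + t * h1

end Tan

/-- The parameter of the tangent line. -/
def lam (K : Type) [Field K] : RatFunc K := RatFunc.X / (RatFunc.X - 1)

theorem X_sub_one_eq (K : Type) [Field K] :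
    algebraMap K[X] (RatFunc K) (X - C 1) = RatFunc.X - 1 := by
  rw [map_sub, RatFunc.algebraMap_X, C_1, map_one]

theorem X_sub_one_ne (K : Type) [Field K] : (RatFunc.X - 1 : RatFunc K) ≠ 0 := by
  rw [← X_sub_one_eq]
  exact RatFunc.algebraMap_ne_zero (X_sub_C_ne_zero 1)

theorem valAt_lam {K : Type} [Field K] {c : K} (hc : c ≠ 1) :
    ValAt c (lam K) (c / (c - 1)) := by
  have h := valAt_div (c := c) X (X - C 1) (by simpa [sub_ne_zero] using hc)
  rw [eval_X, eval_sub, eval_X, eval_C, RatFunc.algebraMap_X, map_sub, RatFunc.algebraMap_X, C_1,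
    map_one] at h
  exact h

section Fam

variable {K : Type} [Field K] [Algebra ℂ K] {A B : ℂ} {u w : K}

/-- The first coordinate of the point of the tangent line. -/
def ta (A : ℂ) (u w : K) : RatFunc K := RatFunc.C u + lam K * RatFunc.C (sl A u w ^ 2 - 3 * u)

/-- The second coordinate of the point of the tangent line. -/
def tb (A : ℂ) (u w : K) : RatFunc K :=
  RatFunc.C w + lam K * RatFunc.C (sl A u w * (sl A u w ^ 2 - 3 * u))

theorem valAt_ta {c : K} (hc : c ≠ 1) :
    ValAt c (ta A u w) (u + c / (c - 1) * (sl A u w ^ 2 - 3 * u)) :=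
  H36.valAt_add (H36.valAt_C c u) (H36.valAt_mul (valAt_lam hc) (H36.valAt_C c _))

theorem valAt_tb {c : K} (hc : c ≠ 1) :
    ValAt c (tb A u w) (w + c / (c - 1) * (sl A u w * (sl A u w ^ 2 - 3 * u))) :=
  H36.valAt_add (H36.valAt_C c w) (H36.valAt_mul (valAt_lam hc) (H36.valAt_C c _))

theorem ta_eq : ta A u w = algebraMap K[X] (RatFunc K)
    (C u * (X - C 1) + C (sl A u w ^ 2 - 3 * u) * X) / (RatFunc.X - 1) := by
  unfold ta lam
  have h := X_sub_one_ne K
  generalize sl A u w ^ 2 - 3 * u = δ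
  rw [map_add, map_mul, map_mul, X_sub_one_eq, RatFunc.algebraMap_X, RatFunc.algebraMap_C,
    RatFunc.algebraMap_C]
  field_simp

theorem tb_eq : tb A u w = algebraMap K[X] (RatFunc K)
    (C w * (X - C 1) + C (sl A u w * (sl A u w ^ 2 - 3 * u)) * X) / (RatFunc.X - 1) := by
  unfold tb lam
  have h := X_sub_one_ne K
  generalize sl A u w * (sl A u w ^ 2 - 3 * u) = δ
  rw [map_add, map_mul, map_mul, X_sub_one_eq, RatFunc.algebraMap_X, RatFunc.algebraMap_C,
    RatFunc.algebraMap_C]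
  field_simp

variable (hu : ∀ p : ℂ[X], p ≠ 0 → aeval u p ≠ 0)
  (hw : w ^ 2 = u ^ 3 + algebraMap ℂ K A * u + algebraMap ℂ K B)

include hu hw

theorem tab_inj (f : ℂ[X][X]) (hf : ev (ta A u w) (tb A u w) f = 0) : f = 0 := by
  by_contra hne
  obtain ⟨j, hj⟩ : ∃ j, f.coeff j ≠ 0 := by
    by_contra h
    push Not at h
    exact hne (Polynomial.ext fun j => by rw [h j, coeff_zero])
  obtain ⟨ξ, hξ⟩ : ∃ ξ : ℂ, (f.coeff j).eval ξ ≠ 0 := by
    by_contra h
    push Not at h
    exact hj (Polynomial.funext fun ξ => by rw [h ξ, eval_zero])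
  have hδ := del_ne hu hw
  set δ := sl A u w ^ 2 - 3 * u with hδdef
  have h1 := u1_not_const hu hw ξ
  have hne1 : algebraMap ℂ K ξ - u - δ ≠ 0 := by
    intro h
    apply h1
    rw [hδdef] at h
    linear_combination (-1 : K) * h
  set c : K := (algebraMap ℂ K ξ - u) / (algebraMap ℂ K ξ - u - δ) with hc
  have hc1 : c ≠ 1 := by
    intro h
    rw [hc, div_eq_one_iff_eq hne1] at h
    exact hδ (by linear_combination h)
  have hcc : c / (c - 1) * δ = algebraMap ℂ K ξ - u := by
    have h2 : c - 1 = δ / (algebraMap ℂ K ξ - u - δ) := by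
      rw [hc, div_sub_one hne1]
      congr 1
      ring
    rw [h2, hc, div_div_div_cancel_right₀ hne1, div_mul_cancel₀ _ hδ]
  have hval := H36.valAt_ev (valAt_ta (A := A) (u := u) (w := w) hc1)
    (valAt_tb (A := A) (u := u) (w := w) hc1) f
  rw [hf] at hval
  have h3 := valAt_zero_eq hval
  rw [← hδdef, hcc, show c / (c - 1) * (sl A u w * δ) = sl A u w * (c / (c - 1) * δ) by ring, hcc,
    add_sub_cancel, ev_const_left] at h3
  have h4 : f.map (evalRingHom ξ) ≠ 0 := by
    intro h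
    have := congrArg (fun p => p.coeff j) h
    rw [coeff_map] at this
    exact hξ this
  obtain ⟨η, hη⟩ := const_of_root h4 h3
  exact no_pt hu hw ξ η hη.symm

theorem valAt_one : tb A u w ≠ 0 ∧ ValAt 1 (ta A u w / tb A u w) (sl A u w)⁻¹ ∧
    ValAt 1 (tb A u w)⁻¹ 0 := by
  have hδ := del_ne hu hw
  have hm := sl_ne hu hw
  have hX := X_sub_one_ne K
  set p1 : K[X] := C u * (X - C 1) + C (sl A u w ^ 2 - 3 * u) * X with hp1
  set p2 : K[X] := C w * (X - C 1) + C (sl A u w * (sl A u w ^ 2 - 3 * u)) * X with hp2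
  have e1 : p1.eval 1 = sl A u w ^ 2 - 3 * u := by rw [hp1]; simp
  have e2 : p2.eval 1 = sl A u w * (sl A u w ^ 2 - 3 * u) := by rw [hp2]; simp
  have e2ne : p2.eval 1 ≠ 0 := by rw [e2]; exact mul_ne_zero hm hδ
  have hp2ne : algebraMap K[X] (RatFunc K) p2 ≠ 0 := by
    refine RatFunc.algebraMap_ne_zero ?_
    intro h
    rw [h, eval_zero] at e2ne
    exact e2ne rfl
  refine ⟨?_, ?_, ?_⟩
  · rw [tb_eq]
    exact div_ne_zero hp2ne hX
  · refine ⟨p1, p2, e2ne, ?_, ?_⟩
    · rw [e1, e2, inv_mul_cancel_left₀ hm]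
    · rw [ta_eq, tb_eq, div_div_div_cancel_right₀ hX]
  · refine ⟨X - C 1, p2, e2ne, by simp, ?_⟩
    rw [tb_eq, inv_div, X_sub_one_eq]

end Fam

/-- An algebraically closed field with a transcendental element. -/
theorem exists_big : ∃ (K : Type) (_ : Field K) (_ : Algebra ℂ K) (_ : IsAlgClosed K) (u : K),
    ∀ p : ℂ[X], p ≠ 0 → aeval u p ≠ 0 := by
  refine ⟨AlgebraicClosure (RatFunc ℂ), inferInstance, inferInstance, inferInstance,
    algebraMap (RatFunc ℂ) _ RatFunc.X, fun p hp h => ?_⟩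
  rw [aeval_algebraMap_apply, map_eq_zero] at h
  have h2 : aeval (RatFunc.X : RatFunc ℂ) p = algebraMap ℂ[X] (RatFunc ℂ) p := by
    rw [← RatFunc.algebraMap_X, aeval_algebraMap_apply, aeval_X_left_apply]
  rw [h2] at h
  exact RatFunc.algebraMap_ne_zero hp h

/-- **P2N.** -/
theorem p2n : ST_P2N := by
  intro L _ _ N ω x Q Q' A B f hQx hQy _ hf h1 h2
  obtain ⟨K, _, _, _, u, hu⟩ := exists_big
  obtain ⟨w, hw⟩ := IsAlgClosed.exists_pow_nat_eq
    (u ^ 3 + algebraMap ℂ K A * u + algebraMap ℂ K B) (n := 2) (by norm_num)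
  obtain ⟨i, hix, hiy, -⟩ := exists_coord_hom Q (ta A u w) (tb A u w) (tab_inj hu hw)
  have hδ := del_ne hu hw
  have hm := sl_ne hu hw
  refine ⟨K, inferInstance, inferInstance, i, ⟨Q.x, ?_⟩, ?_⟩
  · intro c hc
    rw [hix] at hc
    have v0 := valAt_ta (A := A) (u := u) (w := w) (c := 0) (by simp)
    have v2 := valAt_ta (A := A) (u := u) (w := w) (c := 2) (by
      intro h
      have : (1 : K) = 0 := by linear_combination h
      exact one_ne_zero this)
    rw [hc] at v0 v2
    have e0 := valAt_unique v0 (H36.valAt_C 0 c)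
    have e2 := valAt_unique v2 (H36.valAt_C 2 c)
    apply hδ
    have h3 : (2 : K) / (2 - 1) = 2 := by
      rw [show (2 : K) - 1 = 1 by norm_num, div_one]
    rw [h3] at e2
    rw [zero_div, zero_mul, add_zero] at e0
    have h4 : (2 : K) * (sl A u w ^ 2 - 3 * u) = 0 := by
      linear_combination e2 - e0
    exact (mul_eq_zero.1 h4).resolve_left (two_ne K)
  · intro P hP hPX
    obtain ⟨c, hc0, hc⟩ := regAtT_point P hP hPX
    by_cases hc1 : c = 1
    · subst hc1
      obtain ⟨hbne, hv1, hv2⟩ := valAt_one hu hw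
      have hx' : ValAt 1 (i Q'.x) (sl A u w)⁻¹ := by
        rw [hQx, map_div₀, hix, hiy]; exact hv1
      have hy' : ValAt 1 (i Q'.y) 0 := by
        rw [hQy, map_inv₀, hiy]; exact hv2
      rcases pt L Q' K i 1 _ _ hx' hy' (by
        rintro ⟨⟨a, ha⟩, -⟩
        apply sl_not_const hu hw a⁻¹
        rw [map_inv₀, ← ha, inv_inv]) with h | ⟨g, hg, hg0, h⟩
      · left
        intro z
        rw [hc]
        exact h z
      · right
        have hXg : (X : ℂ[X][X]) ∣ g := by
          rw [X_dvd_iff]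
          by_contra hne
          have h3 : ev (sl A u w)⁻¹ (0 : K) g = aeval (sl A u w)⁻¹ (g.coeff 0) := by
            rw [ev_apply, eval₂_at_zero]
            rfl
          rw [h3] at hg0
          obtain ⟨a, ha⟩ := const_of_root hne hg0
          apply sl_not_const hu hw a⁻¹
          rw [map_inv₀, ← ha, inv_inv]
        obtain ⟨v, hv, -⟩ := place_main L Q' X irreducible_X
        have hgX : g ∣ X := by
          obtain ⟨q, hq⟩ := hXg
          rcases hg.isUnit_or_isUnit hq with h3 | h3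
          · exact absurd h3 irreducible_X.not_isUnit
          · obtain ⟨q', hq'⟩ := h3.exists_right_inv
            exact ⟨q', by rw [hq, mul_assoc, hq', mul_one]⟩
        have hvg : IsPlaceOf Q' g v := by
          refine ⟨?_, fun k hk => hv.2 k fun hXk => hk (hgX.trans hXk)⟩
          obtain ⟨q, hq⟩ := hXg
          have hqX : ¬ X ∣ q := by
            intro h3
            rcases hg.isUnit_or_isUnit hq with h4 | h4
            · exact irreducible_X.not_isUnit h4
            · exact irreducible_X.not_isUnit (isUnit_of_dvd_unit h3 h4)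
          have hq0 : q ≠ 0 := by
            rintro rfl
            exact hqX (dvd_zero _)
          rw [hq, map_mul, v.map_mul _ _ (Q'.ne X_ne_zero) (Q'.ne hq0), hv.2 q hqX, add_zero]
          exact hv.1
        obtain ⟨h4, h5⟩ := h2 v hv
        refine ⟨v, h4, h5, fun z => ?_⟩
        rw [hc]
        exact h v hvg z
    · have hx' : ValAt c (i Q.x) (u + c / (c - 1) * (sl A u w ^ 2 - 3 * u)) := by
        rw [hix]; exact valAt_ta hc1
      have hy' : ValAt c (i Q.y) (w + c / (c - 1) * (sl A u w * (sl A u w ^ 2 - 3 * u))) := by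
        rw [hiy]; exact valAt_tb hc1
      rcases pt L Q K i c _ _ hx' hy' (by
        rintro ⟨⟨a, ha⟩, b, hb⟩
        apply no_pt hu hw a b
        rw [← ha, ← hb]; ring) with h | ⟨g, hg, hg0, h⟩
      · left
        intro z
        rw [hc]
        exact h z
      · right
        have hgf : ¬ g ∣ f := by
          rintro ⟨q, hq⟩
          have h3 : ev (u + c / (c - 1) * (sl A u w ^ 2 - 3 * u))
              (w + c / (c - 1) * (sl A u w * (sl A u w ^ 2 - 3 * u))) f = 0 := by
            rw [hq, map_mul, hg0, zero_mul]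
          rw [hf, map_sub, map_pow, ev_X, ev_C] at h3
          simp only [map_add, map_mul, map_pow, aeval_X, aeval_C] at h3
          have h4 := cubic_on_line hu hw (c / (c - 1) * (sl A u w ^ 2 - 3 * u))
          have h5 : (c / (c - 1) * (sl A u w ^ 2 - 3 * u)) ^ 2 *
              (sl A u w ^ 2 - 3 * u - c / (c - 1) * (sl A u w ^ 2 - 3 * u)) = 0 := by
            rw [← h4, ← h3]; ring
          have hcc : c - 1 ≠ 0 := sub_ne_zero.2 hc1
          have h6 : sl A u w ^ 2 - 3 * u - c / (c - 1) * (sl A u w ^ 2 - 3 * u) =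
              - ((sl A u w ^ 2 - 3 * u) / (c - 1)) := by
            field_simp
            ring
          rw [h6] at h5
          rcases mul_eq_zero.1 h5 with h7 | h7
          · exact mul_ne_zero (div_ne_zero hc0 hcc) hδ (pow_eq_zero_iff (two_ne_zero) |>.1 h7)
          · exact div_ne_zero hδ hcc (neg_eq_zero.1 h7)
        obtain ⟨v, hv, -⟩ := place_main L Q g hg
        obtain ⟨h4, h5⟩ := h1 g v hg hgf hv
        refine ⟨v, h4, h5, fun z => ?_⟩
        rw [hc]
        exact h v hv z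

end

end LCY74
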