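import Pool.Agent.Helper26.LC.FamStmts2

/-!
Row PT of MP_f7e214_ag: centre of a non-constant point over `K` in a coordinate plane.
-/

open Polynomial LCY

namespace LCY74

noncomputable section

section Val

variable {K : Type} [Field K]

theorem valAt_C (c a : K) : ValAt c (algebraMap K[X] (RatFunc K) (C a)) a :=
  ⟨C a, 1, by simp, by simp, by simp⟩

theorem valAt_add {c : K} {r s : RatFunc K} {ξ η : K} (h1 : ValAt c r ξ) (h2 : ValAt c s η) :
    ValAt c (r + s) (ξ + η) := by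
  obtain ⟨a, b, hb, ha, rfl⟩ := h1
  obtain ⟨a', b', hb', ha', rfl⟩ := h2
  have hb0 : algebraMap K[X] (RatFunc K) b ≠ 0 := by
    refine RatFunc.algebraMap_ne_zero ?_
    rintro rfl; simp at hb
  have hb0' : algebraMap K[X] (RatFunc K) b' ≠ 0 := by
    refine RatFunc.algebraMap_ne_zero ?_
    rintro rfl; simp at hb'
  refine ⟨a * b' + b * a', b * b', ?_, ?_, ?_⟩
  · rw [eval_mul]; exact mul_ne_zero hb hb'
  · rw [eval_add, eval_mul, eval_mul, eval_mul, ha, ha']; ring
  · rw [map_add, map_mul, map_mul, map_mul, div_add_div _ _ hb0 hb0']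

theorem valAt_mul {c : K} {r s : RatFunc K} {ξ η : K} (h1 : ValAt c r ξ) (h2 : ValAt c s η) :
    ValAt c (r * s) (ξ * η) := by
  obtain ⟨a, b, hb, ha, rfl⟩ := h1
  obtain ⟨a', b', hb', ha', rfl⟩ := h2
  refine ⟨a * a', b * b', ?_, ?_, ?_⟩
  · rw [eval_mul]; exact mul_ne_zero hb hb'
  · rw [eval_mul, eval_mul, ha, ha']; ring
  · rw [map_mul, map_mul, div_mul_div_comm]

theorem valAt_pow {c : K} {r : RatFunc K} {ξ : K} (h : ValAt c r ξ) (n : ℕ) :
    ValAt c (r ^ n) (ξ ^ n) := by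
  induction n with
  | zero =>
    rw [pow_zero, pow_zero]
    simpa using valAt_C c (1 : K)
  | succ n ih => rw [pow_succ, pow_succ]; exact valAt_mul ih h

theorem valAt_inv {c : K} {r : RatFunc K} {ξ : K} (h : ValAt c r ξ) (hξ : ξ ≠ 0) :
    ValAt c r⁻¹ ξ⁻¹ := by
  obtain ⟨a, b, hb, ha, rfl⟩ := h
  refine ⟨b, a, ?_, ?_, ?_⟩
  · rw [ha]; exact mul_ne_zero hξ hb
  · rw [ha, inv_mul_cancel_left₀ hξ]
  · rw [inv_div]

theorem valAt_unique {c : K} {r : RatFunc K} {ξ η : K} (h1 : ValAt c r ξ) (h2 : ValAt c r η) :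
    ξ = η := by
  obtain ⟨a, b, hb, ha, rfl⟩ := h1
  obtain ⟨a', b', hb', ha', he⟩ := h2
  have hb0 : algebraMap K[X] (RatFunc K) b ≠ 0 := by
    refine RatFunc.algebraMap_ne_zero ?_
    rintro rfl; simp at hb
  have hb0' : algebraMap K[X] (RatFunc K) b' ≠ 0 := by
    refine RatFunc.algebraMap_ne_zero ?_
    rintro rfl; simp at hb'
  rw [div_eq_div_iff hb0 hb0', ← map_mul, ← map_mul] at he
  have he' := RatFunc.algebraMap_injective K he
  have h3 := congrArg (eval c) he'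
  rw [eval_mul, eval_mul, ha, ha'] at h3
  have h4 : (ξ - η) * (b.eval c * b'.eval c) = 0 := by linear_combination h3
  rcases mul_eq_zero.1 h4 with h | h
  · exact sub_eq_zero.1 h
  · exact absurd h (mul_ne_zero hb hb')

theorem not_dvd_iff {c : K} {b : K[X]} : ¬ (X - C c) ∣ b ↔ b.eval c ≠ 0 := by
  rw [dvd_iff_isRoot]; rfl

theorem regAtT_iff_valAt {c : K} {r : RatFunc K} :
    RegAtT (X - C c) r ↔ ∃ ξ, ValAt c r ξ := by
  constructor
  · rintro ⟨a, b, hb, rfl⟩
    rw [not_dvd_iff] at hb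
    exact ⟨a.eval c / b.eval c, a, b, hb, by rw [div_mul_cancel₀ _ hb], rfl⟩
  · rintro ⟨ξ, a, b, hb, -, rfl⟩
    exact ⟨a, b, not_dvd_iff.2 hb, rfl⟩

/-- A function which vanishes at `c` is not the inverse of a regular one. -/
theorem not_reg_inv {c : K} {r : RatFunc K} (h0 : r ≠ 0) (h : ValAt c r 0) :
    ¬ RegAtT (X - C c) r⁻¹ := by
  intro h1
  obtain ⟨ξ, h2⟩ := regAtT_iff_valAt.1 h1
  have h3 := valAt_mul h h2
  rw [mul_inv_cancel₀ h0, zero_mul] at h3
  have h4 : ValAt c (1 : RatFunc K) 1 := by simpa using valAt_C c (1 : K)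
  exact one_ne_zero (valAt_unique h4 h3)

theorem valAt_sum {ι : Type} {c : K} (s : Finset ι) (r : ι → RatFunc K) (ξ : ι → K)
    (h : ∀ j ∈ s, ValAt c (r j) (ξ j)) : ValAt c (∑ j ∈ s, r j) (∑ j ∈ s, ξ j) := by
  classical
  induction s using Finset.induction_on with
  | empty => simpa using valAt_C c (0 : K)
  | insert a s ha ih =>
    rw [Finset.sum_insert ha, Finset.sum_insert ha]
    exact valAt_add (h a (Finset.mem_insert_self a s))
      (ih fun j hj => h j (Finset.mem_insert_of_mem hj))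

end Val

theorem valAt_const {K : Type} [Field K] [Algebra ℂ K] (c : K) (a : ℂ) :
    ValAt c (algebraMap ℂ (RatFunc K) a) (algebraMap ℂ K a) := by
  have h : algebraMap ℂ (RatFunc K) a = algebraMap K[X] (RatFunc K) (C (algebraMap ℂ K a)) := by
    rw [IsScalarTower.algebraMap_apply ℂ K[X] (RatFunc K), Polynomial.algebraMap_apply]
  rw [h]
  exact valAt_C c _

variable {L : Type} [Field L] [Algebra ℂ L]

theorem map_ev {K' : Type} [Field K'] [Algebra ℂ K'] (i : L →ₐ[ℂ] K') (x y : L) (f : ℂ[X][X]) :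
    i (ev x y f) = ev (i x) (i y) f := by
  rw [ev_eq_sum, ev_eq_sum, map_sum]
  refine Finset.sum_congr rfl fun e _ => ?_
  rw [map_mul, map_mul, map_pow, map_pow, AlgHom.commutes]

theorem valAt_ev {K : Type} [Field K] [Algebra ℂ K] {c : K} {r s : RatFunc K} {ξ η : K}
    (h1 : ValAt c r ξ) (h2 : ValAt c s η) (f : ℂ[X][X]) : ValAt c (ev r s f) (ev ξ η f) := by
  rw [ev_eq_sum, ev_eq_sum]
  exact valAt_sum _ _ _ fun e _ =>
    valAt_mul (valAt_mul (valAt_const c _) (valAt_pow h1 _)) (valAt_pow h2 _)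

theorem clear_den (q : (RatFunc ℂ)[X]) : ∃ (d : ℂ[X]) (q' : ℂ[X][X]), d ≠ 0 ∧
    q'.map (algebraMap ℂ[X] (RatFunc ℂ)) = C (algebraMap ℂ[X] (RatFunc ℂ) d) * q := by
  obtain ⟨d, hd, h⟩ := IsLocalization.integerNormalization_spec (nonZeroDivisors ℂ[X]) q
  refine ⟨d, _, nonZeroDivisors.ne_zero hd, h.trans ?_⟩
  rw [← smul_eq_C_mul, algebraMap_smul]

/-- Elimination. -/
theorem elim {f g : ℂ[X][X]} (hf : Irreducible f) (hg : ¬ f ∣ g) :
    ∃ (d : ℂ[X]) (a b : ℂ[X][X]), d ≠ 0 ∧ a * f + b * g = C d := by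
  classical
  by_cases h0 : f.natDegree = 0
  · refine ⟨f.coeff 0, 1, 0, ?_, ?_⟩
    · intro h
      apply hf.ne_zero
      rw [eq_C_of_natDegree_eq_zero h0, h, C_0]
    · rw [one_mul, zero_mul, add_zero]; exact eq_C_of_natDegree_eq_zero h0
  have hprim : f.IsPrimitive := hf.isPrimitive h0
  have hirr : Irreducible (f.map (algebraMap ℂ[X] (RatFunc ℂ))) :=
    (hprim.irreducible_iff_irreducible_map_fraction_map (K := RatFunc ℂ)).1 hf
  have hinj' : Function.Injective (Polynomial.map (algebraMap ℂ[X] (RatFunc ℂ))) :=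
    map_injective _ (RatFunc.algebraMap_injective ℂ)
  have hnd : ¬ f.map (algebraMap ℂ[X] (RatFunc ℂ)) ∣ g.map (algebraMap ℂ[X] (RatFunc ℂ)) := by
    rintro ⟨q, hq⟩
    obtain ⟨d, q', hd0, hd⟩ := clear_den q
    have h1 : C d * g = f * q' := by
      apply hinj'
      rw [Polynomial.map_mul, Polynomial.map_mul, hq, hd, map_C]
      ring
    have h2 : f ∣ C d * g := ⟨q', h1⟩
    rcases hf.prime.dvd_or_dvd h2 with h3 | h3
    · have h4 := natDegree_le_of_dvd h3 (by rwa [Ne, C_eq_zero])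
      rw [natDegree_C] at h4
      omega
    · exact hg h3
  have hcop : IsCoprime (f.map (algebraMap ℂ[X] (RatFunc ℂ)))
      (g.map (algebraMap ℂ[X] (RatFunc ℂ))) := (hirr.coprime_iff_not_dvd).2 hnd
  obtain ⟨a, b, hab⟩ := hcop
  obtain ⟨d, a', hd0, hd⟩ := clear_den a
  obtain ⟨e, b', he0, he⟩ := clear_den b
  refine ⟨d * e, C e * a', C d * b', mul_ne_zero hd0 he0, ?_⟩
  apply hinj'
  rw [Polynomial.map_add, Polynomial.map_mul, Polynomial.map_mul, Polynomial.map_mul,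
    Polynomial.map_mul, hd, he, map_C, map_C, map_C, map_mul, C_mul]
  linear_combination (C (algebraMap ℂ[X] (RatFunc ℂ) d) * C (algebraMap ℂ[X] (RatFunc ℂ) e)) * hab

theorem const_of_root {K : Type} [Field K] [Algebra ℂ K] {ξ : K} {d : ℂ[X]} (hd : d ≠ 0)
    (h : aeval ξ d = 0) : ∃ a : ℂ, ξ = algebraMap ℂ K a := by
  have halg : IsAlgebraic ℂ ξ := ⟨d, hd, h⟩
  obtain ⟨a, ha⟩ := minpoly.mem_range_of_degree_eq_one ℂ ξ
    (IsAlgClosed.degree_eq_one_of_irreducible ℂ (minpoly.irreducible halg.isIntegral))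
  exact ⟨a, ha.symm⟩

/-- The kernel of the evaluation at a non-constant point is zero or generated by an irreducible
polynomial. -/
theorem ker_ev {K : Type} [Field K] [Algebra ℂ K] {ξ η : K}
    (hne : ¬ ((∃ a : ℂ, ξ = algebraMap ℂ K a) ∧ ∃ b : ℂ, η = algebraMap ℂ K b)) :
    (∀ f : ℂ[X][X], f ≠ 0 → ev ξ η f ≠ 0) ∨
      ∃ f : ℂ[X][X], Irreducible f ∧ ev ξ η f = 0 ∧ ∀ g, ¬ f ∣ g → ev ξ η g ≠ 0 := by
  classical
  by_cases hξ : ∃ a : ℂ, ξ = algebraMap ℂ K a
  · obtain ⟨a, rfl⟩ := hξ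
    have hη : ¬ ∃ b : ℂ, η = algebraMap ℂ K b := fun h => hne ⟨⟨a, rfl⟩, h⟩
    right
    refine ⟨C (X - C a), ?_, ?_, ?_⟩
    · exact (prime_C_iff.2 (prime_X_sub_C a)).irreducible
    · rw [ev_C, map_sub, aeval_X, aeval_C, sub_self]
    · intro g hg h0
      have h1 : g.map (evalRingHom a) ≠ 0 := by
        intro h2
        apply hg
        rw [C_dvd_iff_dvd_coeff]
        intro i
        rw [dvd_iff_isRoot]
        have := congrArg (fun p => p.coeff i) h2
        simpa [coeff_map] using this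
      have h2 : ev (algebraMap ℂ K a) η g = aeval η (g.map (evalRingHom a)) := by
        rw [ev_apply, aeval_def, eval₂_map]
        congr 1
        refine RingHom.ext fun p => ?_
        show aeval (algebraMap ℂ K a) p = algebraMap ℂ K (eval a p)
        rw [aeval_algebraMap_apply]
        rfl
      rw [h2] at h0
      exact hη (const_of_root h1 h0)
  · set 𝔭 : Ideal ℂ[X][X] := RingHom.ker (ev ξ η) with h𝔭
    have hp : 𝔭.IsPrime := RingHom.ker_isPrime _
    by_cases h0 : 𝔭 = ⊥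
    · left
      intro f hf h
      apply hf
      have : f ∈ 𝔭 := h
      rw [h0] at this
      exact this
    · right
      obtain ⟨f, hf, hfp⟩ := hp.exists_mem_prime_of_ne_bot h0
      refine ⟨f, hfp.irreducible, hf, ?_⟩
      intro g hg hg0
      obtain ⟨d, a, b, hd, hab⟩ := elim hfp.irreducible hg
      have h1 : ev ξ η (C d) = 0 := by
        rw [← hab, map_add, map_mul, map_mul, hg0, show ev ξ η f = 0 from hf]
        ring
      rw [ev_C] at h1
      exact hξ (const_of_root hd h1)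

theorem split_off {f a : ℂ[X][X]} (hf : Irreducible f) (ha : a ≠ 0) :
    ∃ (m : ℕ) (a' : ℂ[X][X]), a = f ^ m * a' ∧ ¬ f ∣ a' := by
  obtain ⟨c, h1, h2⟩ :=
    (FiniteMultiplicity.of_prime_left hf.prime ha).exists_eq_pow_mul_and_not_dvd
  exact ⟨_, c, h1, h2⟩

/-- **PT.** -/
theorem pt : ST_PT := by
  intro L _ _ Q K _ _ i c ξ η hx hy hne
  have hval : ∀ f : ℂ[X][X], ValAt c (i (ev Q.x Q.y f)) (ev ξ η f) := by
    intro f
    rw [map_ev]
    exact valAt_ev hx hy f
  rcases ker_ev hne with h | ⟨f, hf, hf0, h⟩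
  · left
    intro z
    obtain ⟨f, g, hg, rfl⟩ := Q.surj z
    rw [map_div₀, div_eq_mul_inv]
    exact regAtT_iff_valAt.2 ⟨_, valAt_mul (hval f) (valAt_inv (hval g) (h g hg))⟩
  · right
    refine ⟨f, hf, hf0, ?_⟩
    intro v hv z
    have hF : ev Q.x Q.y f ≠ 0 := Q.ne hf.ne_zero
    -- units
    have hunit : ∀ g g' : ℂ[X][X], ¬ f ∣ g → ¬ f ∣ g' →
        ev Q.x Q.y g ≠ 0 ∧ ev Q.x Q.y g' ≠ 0 ∧ v.v (ev Q.x Q.y g / ev Q.x Q.y g') = 0 ∧
        ∃ ζ, ζ ≠ 0 ∧ ValAt c (i (ev Q.x Q.y g / ev Q.x Q.y g')) ζ := by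
      intro g g' hg hg'
      have h1 : ev Q.x Q.y g ≠ 0 := Q.ne (by rintro rfl; exact hg (dvd_zero _))
      have h2 : ev Q.x Q.y g' ≠ 0 := Q.ne (by rintro rfl; exact hg' (dvd_zero _))
      refine ⟨h1, h2, ?_, ev ξ η g * (ev ξ η g')⁻¹, ?_, ?_⟩
      · rw [v.map_div h1 h2, hv.2 g hg, hv.2 g' hg', sub_zero]
      · exact mul_ne_zero (h g hg) (inv_ne_zero (h g' hg'))
      · rw [map_div₀, div_eq_mul_inv]
        exact valAt_mul (hval g) (valAt_inv (hval g') (h g' hg'))
    by_cases hz : z = 0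
    · subst hz
      refine ⟨fun _ => ?_, fun _ => Or.inl rfl⟩
      rw [map_zero]
      exact regAtT_iff_valAt.2 ⟨0, by simpa using valAt_C c (0 : K)⟩
    obtain ⟨a, b, hb, hzab⟩ := Q.surj z
    have ha : a ≠ 0 := by
      rintro rfl
      rw [map_zero, zero_div] at hzab
      exact hz hzab
    obtain ⟨m, a', rfl, ha'⟩ := split_off hf ha
    obtain ⟨n, b', rfl, hb'⟩ := split_off hf hb
    obtain ⟨hA, hB, hu0, ζ, hζ, hζv⟩ := hunit a' b' ha' hb'
    have hz2 : z = ev Q.x Q.y f ^ m * (ev Q.x Q.y f ^ n)⁻¹ *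
        (ev Q.x Q.y a' / ev Q.x Q.y b') := by
      rw [hzab, map_mul, map_mul, map_pow, map_pow]
      field_simp
    set u := ev Q.x Q.y a' / ev Q.x Q.y b' with hu
    have hune : u ≠ 0 := div_ne_zero hA hB
    have hvF : 0 < v.v (ev Q.x Q.y f) := hv.1
    have hvz : v.v z = ((m : ℤ) - n) * v.v (ev Q.x Q.y f) := by
      rw [hz2, v.map_mul _ _ (mul_ne_zero (pow_ne_zero _ hF) (inv_ne_zero (pow_ne_zero _ hF)))
        hune, v.map_mul _ _ (pow_ne_zero _ hF) (inv_ne_zero (pow_ne_zero _ hF)),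
        v.map_inv (pow_ne_zero _ hF), v.map_pow hF, v.map_pow hF, hu0]
      ring
    have hFv : ValAt c (i (ev Q.x Q.y f)) 0 := by
      have := hval f
      rwa [hf0] at this
    rcases le_or_gt n m with hmn | hmn
    · refine ⟨fun _ => ?_, fun _ => Or.inr ?_⟩
      · obtain ⟨d, rfl⟩ := Nat.exists_eq_add_of_le hmn
        have hz3 : z = ev Q.x Q.y f ^ d * u := by
          rw [hz2, pow_add]
          field_simp
        rw [hz3, map_mul, map_pow]
        exact regAtT_iff_valAt.2 ⟨_, valAt_mul (valAt_pow hFv d) hζv⟩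
      · rw [hvz]
        have : (n : ℤ) ≤ m := by exact_mod_cast hmn
        exact mul_nonneg (by omega) hvF.le
    · constructor
      · intro h1
        exfalso
        rcases h1 with h1 | h1
        · exact hz h1
        · rw [hvz] at h1
          have : (m : ℤ) < n := by exact_mod_cast hmn
          nlinarith
      · intro h1
        exfalso
        obtain ⟨d, rfl⟩ := Nat.exists_eq_add_of_lt hmn
        have hz3 : z⁻¹ = ev Q.x Q.y f ^ (d + 1) * u⁻¹ := by
          rw [hz2]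
          field_simp
          ring
        have h2 : ValAt c (i z⁻¹) 0 := by
          rw [hz3, map_mul, map_pow, map_inv₀]
          have := valAt_mul (valAt_pow hFv (d + 1)) (valAt_inv hζv hζ)
          rwa [zero_pow (Nat.succ_ne_zero d), zero_mul] at this
        have h3 : i z⁻¹ ≠ 0 := by
          rw [Ne, map_eq_zero]
          exact inv_ne_zero hz
        have h4 := not_reg_inv h3 h2
        rw [map_inv₀, inv_inv] at h4
        exact h4 h1

end

end LCY74
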