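import Pool.Agent.Helper82.LCY.Beta

/-!
Lattice half of the row T0PT of MP_f7e214_ag: if the classes of the contracted curves generate
`K^perp` then they are `e_1 - e_2, ..., e_(k-1) - e_k` and `H - e_1 - e_2 - e_3`.
-/

namespace LCY74

open Pool.Agent.Helper82.LCY Finset

section General

variable {ι : Type*} [Fintype ι]

theorem even_of_perp {x : Cl ℤ ι} (hx : ip KK x = 0) : Even (ip x x) := by
  have h1 : ip x x = x.1 * (x.1 - 1) - ∑ i, x.2 i * (x.2 i - 1) - 2 * x.1 := by
    rw [ip_KK] at hx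
    simp only [ip, mul_sub, mul_one, Finset.sum_sub_distrib]
    linarith
  rw [h1]
  refine Even.sub (Even.sub (Int.even_mul_pred_self _) ?_) (even_two_mul _)
  exact Finset.even_sum _ fun i _ => Int.even_mul_pred_self _

/-- Every root of the lattice generated by the set `T` is a nonnegative or a nonpositive
combination of elements of `T`. -/
theorem root_pos (hk : Fintype.card ι ≤ 8) (T : Set (Cl ℤ ι)) (hK : ∀ c ∈ T, ip KK c = 0)
    (hC : ∀ c ∈ T, ∀ c' ∈ T, c ≠ c' → 0 ≤ ip c c') {α : Cl ℤ ι}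
    (hα : α ∈ Submodule.span ℤ T) (h2 : ip α α = -2) :
    ∃ (s : Finset (Cl ℤ ι)) (n : Cl ℤ ι → ℤ), (∀ c ∈ s, c ∈ T) ∧ (∀ c ∈ s, 0 ≤ n c) ∧
      (∑ c ∈ s, n c • c = α ∨ ∑ c ∈ s, n c • c = -α) := by
  classical
  obtain ⟨f, s, hs, -, hsum⟩ := Submodule.mem_span_iff_exists_finset_subset.1 hα
  have hs' : ∀ c ∈ s, c ∈ T := fun c hc => hs (Finset.mem_coe.2 hc)
  set P : Cl ℤ ι := ∑ c ∈ s, (max (f c) 0) • c with hP
  set N : Cl ℤ ι := ∑ c ∈ s, (max (-f c) 0) • c with hN
  have hPN : α = P - N := by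
    rw [hP, hN, ← Finset.sum_sub_distrib, ← hsum]
    refine Finset.sum_congr rfl fun c _ => ?_
    rw [← sub_smul]
    congr 1
    rcases le_total (f c) 0 with h | h
    · rw [max_eq_right h, max_eq_left (by omega)]; ring
    · rw [max_eq_left h, max_eq_right (by omega)]; ring
  have hKP : ip KK P = 0 := by
    rw [hP, ip_sum_right]
    exact Finset.sum_eq_zero fun c hc => by rw [ip_smul_right, hK c (hs' c hc), mul_zero]
  have hKN : ip KK N = 0 := by
    rw [hN, ip_sum_right]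
    exact Finset.sum_eq_zero fun c hc => by rw [ip_smul_right, hK c (hs' c hc), mul_zero]
  have hPNn : 0 ≤ ip P N := by
    rw [hP, hN, ip_sum_left]
    refine Finset.sum_nonneg fun c hc => ?_
    rw [ip_sum_right]
    refine Finset.sum_nonneg fun c' hc' => ?_
    rw [ip_smul_left, ip_smul_right]
    by_cases h : c = c'
    · subst h
      rcases le_total (f c) 0 with h | h
      · rw [max_eq_right h]; simp
      · rw [max_eq_right (a := -f c) (by omega)]; simp
    · exact mul_nonneg (le_max_right _ _)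
        (mul_nonneg (le_max_right _ _) (hC c (hs' c hc) c' (hs' c' hc') h))
  have hexp : ip α α = ip P P - 2 * ip P N + ip N N := by
    rw [hPN, ip_sub_left, ip_sub_right, ip_sub_right, ip_comm N P]; ring
  by_cases h1 : P = 0
  · refine ⟨s, fun c => max (-f c) 0, hs', fun c _ => le_max_right _ _, Or.inr ?_⟩
    rw [hPN, h1, zero_sub, neg_neg]
  by_cases h3 : N = 0
  · refine ⟨s, fun c => max (f c) 0, hs', fun c _ => le_max_right _ _, Or.inl ?_⟩
    rw [hPN, h3, sub_zero]
  exfalso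
  have h4 := neg_of_perp hk hKP h1
  have h5 := neg_of_perp hk hKN h3
  obtain ⟨a, ha⟩ := even_of_perp hKP
  obtain ⟨b, hb⟩ := even_of_perp hKN
  rw [h2] at hexp
  omega

end General

variable {k : ℕ}

/-- The class `e_i - e_j`. -/
def ee (i j : Fin k) : Cl ℤ (Fin k) :=
  (0, fun l => (if l = j then 1 else 0) - (if l = i then 1 else 0))

/-- The class `H - e_1 - e_2 - e_3`. -/
def l3 (k : ℕ) : Cl ℤ (Fin k) := (1, fun i => if (i : ℕ) < 3 then 1 else 0)

theorem ip_ee (z : Cl ℤ (Fin k)) (i j : Fin k) : ip z (ee i j) = z.2 i - z.2 j := by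
  simp only [ip, ee, mul_zero, mul_sub, mul_ite, mul_one, Finset.sum_sub_distrib,
    Finset.sum_ite_eq', Finset.mem_univ, if_true]
  ring

theorem KK_ee (i j : Fin k) : ip KK (ee i j) = 0 := by
  rw [ip_ee]; simp [KK]

theorem ee_sq {i j : Fin k} (h : i ≠ j) : ip (ee i j) (ee i j) = -2 := by
  rw [ip_ee]
  simp [ee, h, Ne.symm h]

/-- The weight of a class. -/
def wt (z : Cl ℤ (Fin k)) : ℤ := ∑ l : Fin k, ((l : ℕ) : ℤ) * z.2 l

theorem wt_sum (s : Finset (Cl ℤ (Fin k))) (n : Cl ℤ (Fin k) → ℤ) :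
    wt (∑ c ∈ s, n c • c) = ∑ c ∈ s, n c * wt c := by
  unfold wt
  simp only [Prod.snd_sum, Finset.sum_apply, Prod.smul_snd, Pi.smul_apply, smul_eq_mul,
    Finset.mul_sum]
  rw [Finset.sum_comm]
  refine Finset.sum_congr rfl fun c _ => Finset.sum_congr rfl fun l _ => by ring

theorem wt_ee (i j : Fin k) : wt (ee i j) = ((j : ℕ) : ℤ) - ((i : ℕ) : ℤ) := by
  simp only [wt, ee, mul_sub, mul_ite, mul_one, mul_zero, Finset.sum_sub_distrib,
    Finset.sum_ite_eq', Finset.mem_univ, if_true]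

theorem wt_neg (z : Cl ℤ (Fin k)) : wt (-z) = - wt z := by
  simp [wt]

/-- A finite sum of nonnegative integers is one: exactly one of them is one. -/
theorem one_term {κ : Type*} (s : Finset κ) (f : κ → ℤ) (h0 : ∀ c ∈ s, 0 ≤ f c)
    (h1 : ∑ c ∈ s, f c = 1) : ∃ c0 ∈ s, f c0 = 1 ∧ ∀ c ∈ s, c ≠ c0 → f c = 0 := by
  classical
  have hex : ∃ c0 ∈ s, f c0 ≠ 0 := by
    by_contra h
    push Not at h
    rw [Finset.sum_eq_zero h] at h1
    exact zero_ne_one h1
  obtain ⟨c0, hc0, hne⟩ := hex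
  have h2 := Finset.add_sum_erase s f hc0
  have h3 : 0 ≤ ∑ c ∈ s.erase c0, f c :=
    Finset.sum_nonneg fun c hc => h0 c (Finset.mem_of_mem_erase hc)
  have h4 := h0 c0 hc0
  have h5 : f c0 = 1 := by omega
  have h6 : ∑ c ∈ s.erase c0, f c = 0 := by omega
  refine ⟨c0, hc0, h5, fun c hc hcc => ?_⟩
  exact (Finset.sum_eq_zero_iff_of_nonneg
    (fun c hc => h0 c (Finset.mem_of_mem_erase hc))).1 h6 c (Finset.mem_erase.2 ⟨hcc, hc⟩)

/-- The chain. -/
theorem chain_mem (hk : k ≤ 8) (T : Set (Cl ℤ (Fin k))) (hK : ∀ c ∈ T, ip KK c = 0)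
    (hC : ∀ c ∈ T, ∀ c' ∈ T, c ≠ c' → 0 ≤ ip c c')
    (hspan : ∀ z, ip KK z = 0 → z ∈ Submodule.span ℤ T) (hdeg : ∀ c ∈ T, 0 ≤ c.1)
    (hexc : ∀ c ∈ T, c.1 = 0 → ∃ i j, i < j ∧ c = ee i j) (i j : Fin k)
    (hij : (i : ℕ) + 1 = j) : ee i j ∈ T := by
  classical
  have hne : i ≠ j := by
    intro h; rw [h] at hij; omega
  obtain ⟨s, n, hs, hn, hsum⟩ := root_pos (by simpa using hk) T hK hC
    (hspan _ (KK_ee i j)) (ee_sq hne)
  have hd0 : ∑ c ∈ s, n c * c.1 = 0 := by
    rcases hsum with h | h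
    · have := congrArg Prod.fst h
      rw [Prod.fst_sum] at this
      simpa [ee] using this
    · have := congrArg Prod.fst h
      rw [Prod.fst_sum] at this
      simpa [ee] using this
  have hd : ∀ c ∈ s, n c * c.1 = 0 :=
    (Finset.sum_eq_zero_iff_of_nonneg fun c hc => mul_nonneg (hn c hc) (hdeg c (hs c hc))).1 hd0
  have hw : ∀ c ∈ s, n c = 0 ∨ 1 ≤ wt c := by
    intro c hc
    rcases mul_eq_zero.1 (hd c hc) with h | h
    · exact Or.inl h
    · right
      obtain ⟨a, b, hab, rfl⟩ := hexc c (hs c hc) h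
      rw [wt_ee]
      have : (a : ℕ) < b := hab
      omega
  have hw0 : ∀ c ∈ s, 0 ≤ n c * wt c := by
    intro c hc
    rcases hw c hc with h | h
    · rw [h, zero_mul]
    · exact mul_nonneg (hn c hc) (by omega)
  have hwα : wt (ee i j) = 1 := by rw [wt_ee, ← hij]; push_cast; ring
  rcases hsum with h | h
  · have h1 : ∑ c ∈ s, n c * wt c = 1 := by rw [← wt_sum, h, hwα]
    obtain ⟨c0, hc0, h2, h3⟩ := one_term s (fun c => n c * wt c) hw0 h1
    have h4 : ∀ c ∈ s, c ≠ c0 → n c • c = 0 := by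
      intro c hc hcc
      rcases hw c hc with h5 | h5
      · rw [h5, zero_smul]
      · have := h3 c hc hcc
        rcases mul_eq_zero.1 this with h6 | h6
        · rw [h6, zero_smul]
        · omega
    have h5 : n c0 = 1 := by
      rcases hw c0 hc0 with h6 | h6
      · rw [h6, zero_mul] at h2; omega
      · exact (Int.mul_eq_one_iff_eq_one_or_neg_one.1 h2).elim (fun h => h.1)
          (fun h => by have := hn c0 hc0; omega)
    rw [Finset.sum_eq_single c0 h4 (fun h => absurd hc0 h), h5, one_smul] at h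
    rw [← h]
    exact hs c0 hc0
  · exfalso
    have h1 : ∑ c ∈ s, n c * wt c = -1 := by rw [← wt_sum, h, wt_neg, hwα]
    have := Finset.sum_nonneg hw0
    omega

theorem anti_of_chain {m : Fin k → ℤ} (h : ∀ i j : Fin k, (i : ℕ) + 1 = j → m j ≤ m i) :
    Antitone m := by
  have key : ∀ (d : ℕ) (i j : Fin k), (i : ℕ) + d = j → m j ≤ m i := by
    intro d
    induction d with
    | zero =>
      intro i j hij
      rw [show j = i from Fin.ext (by omega)]
    | succ d ih =>
      intro i j hij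
      have hlt : (i : ℕ) + d < k := by have := j.2; omega
      exact le_trans (h ⟨(i : ℕ) + d, hlt⟩ j (by show (i : ℕ) + d + 1 = j; omega))
        (ih i ⟨(i : ℕ) + d, hlt⟩ rfl)
  intro i j hij
  have hij' : (i : ℕ) ≤ j := hij
  exact key ((j : ℕ) - i) i j (by omega)

theorem sum_lt (n : ℕ) (hn : n ≤ k) : ∑ i : Fin k, (if (i : ℕ) < n then (1 : ℤ) else 0) = n := by
  rw [Fin.sum_univ_eq_sum_range (fun i => if i < n then (1 : ℤ) else 0) k, Finset.sum_ite,
    Finset.sum_const_zero, add_zero, Finset.sum_const, nsmul_eq_mul, mul_one]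
  congr 1
  have : (range k).filter (fun i => i < n) = range n := by
    ext a
    simp only [Finset.mem_filter, Finset.mem_range]
    omega
  rw [this, Finset.card_range]

theorem ip_l3 (z : Cl ℤ (Fin k)) :
    ip z (l3 k) = z.1 - ∑ i : Fin k, (if (i : ℕ) < 3 then z.2 i else 0) := by
  simp only [ip, l3, mul_one, mul_ite, mul_zero]

theorem KK_l3 (hk : 3 ≤ k) : ip KK (l3 k) = 0 := by
  rw [ip_l3]
  have h : ∑ i : Fin k, (if (i : ℕ) < 3 then (-1 : ℤ) else 0) = -3 := by
    have := sum_lt (k := k) 3 hk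
    have h2 : ∑ i : Fin k, (if (i : ℕ) < 3 then (-1 : ℤ) else 0)
        = - ∑ i : Fin k, (if (i : ℕ) < 3 then (1 : ℤ) else 0) := by
      rw [← Finset.sum_neg_distrib]
      exact Finset.sum_congr rfl fun i _ => by split_ifs <;> simp
    rw [h2, this]; rfl
  simp only [KK]
  rw [h]; rfl

theorem l3_sq (hk : 3 ≤ k) : ip (l3 k) (l3 k) = -2 := by
  rw [ip_l3]
  have h : ∑ i : Fin k, (if (i : ℕ) < 3 then (l3 k).2 i else 0) = 3 := by
    refine Eq.trans ?_ (sum_lt (k := k) 3 hk)
    exact Finset.sum_congr rfl fun i _ => by simp only [l3]; split_ifs <;> rfl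
  rw [h]; rfl

/-- The line. -/
theorem line_mem (hk3 : 3 ≤ k) (hk : k ≤ 8) (T : Set (Cl ℤ (Fin k)))
    (hK : ∀ c ∈ T, ip KK c = 0) (hC : ∀ c ∈ T, ∀ c' ∈ T, c ≠ c' → 0 ≤ ip c c')
    (hspan : ∀ z, ip KK z = 0 → z ∈ Submodule.span ℤ T) (hdeg : ∀ c ∈ T, 0 ≤ c.1)
    (hexc : ∀ c ∈ T, c.1 = 0 → ∃ i j, i < j ∧ c = ee i j)
    (hline : ∀ c ∈ T, c.1 = 1 → ∀ i, 0 ≤ c.2 i ∧ c.2 i ≤ 1) : l3 k ∈ T := by
  classical
  obtain ⟨s, n, hs, hn, hsum⟩ := root_pos (by simpa using hk) T hK hC
    (hspan _ (KK_l3 hk3)) (l3_sq hk3)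
  have hnn : ∀ c ∈ s, 0 ≤ n c * c.1 := fun c hc => mul_nonneg (hn c hc) (hdeg c (hs c hc))
  rcases hsum with h | h
  · have hd := congrArg Prod.fst h
    rw [Prod.fst_sum] at hd
    have hd1 : ∑ c ∈ s, n c * c.1 = 1 := by simpa [l3] using hd
    obtain ⟨c0, hc0, h2, -⟩ := one_term s (fun c => n c * c.1) hnn hd1
    have h3 : c0.1 = 1 := by
      rcases Int.mul_eq_one_iff_eq_one_or_neg_one.1 h2 with h | h
      · exact h.2
      · have := hn c0 hc0; omega
    have hT0 := hs c0 hc0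
    have ha : Antitone c0.2 := anti_of_chain fun i j hij => by
      have hm := chain_mem hk T hK hC hspan hdeg hexc i j hij
      have h4 := hC c0 hT0 _ hm (by
        intro h5
        rw [h5] at h3
        simp [ee] at h3)
      rw [ip_ee] at h4
      omega
    have h01 := hline c0 hT0 h3
    have hs3 : ∑ i, c0.2 i = 3 := by
      have := hK c0 hT0
      rw [ip_KK, h3] at this
      omega
    have heq : c0 = l3 k := by
      refine Prod.ext h3 (funext fun i => ?_)
      show c0.2 i = if (i : ℕ) < 3 then 1 else 0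
      by_cases hi : (i : ℕ) < 3
      · rw [if_pos hi]
        by_contra hne
        have h0 : c0.2 i = 0 := by have := h01 i; omega
        have hle : ∑ j, c0.2 j ≤ ∑ j : Fin k, (if (j : ℕ) < (i : ℕ) then (1 : ℤ) else 0) := by
          refine Finset.sum_le_sum fun j _ => ?_
          split_ifs with hj
          · exact (h01 j).2
          · have := ha (show i ≤ j from not_lt.1 hj)
            omega
        rw [sum_lt _ i.2.le, hs3] at hle
        omega
      · rw [if_neg hi]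
        by_contra hne
        have h1 : c0.2 i = 1 := by have := h01 i; omega
        have hle : ∑ j : Fin k, (if (j : ℕ) < (i : ℕ) + 1 then (1 : ℤ) else 0) ≤ ∑ j, c0.2 j := by
          refine Finset.sum_le_sum fun j _ => ?_
          split_ifs with hj
          · have := ha (show j ≤ i from Nat.lt_succ_iff.1 hj)
            omega
          · exact (h01 j).1
        rw [sum_lt _ i.2, hs3] at hle
        push_cast at hle
        omega
    rw [← heq]
    exact hT0
  · exfalso
    have hd := congrArg Prod.fst h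
    rw [Prod.fst_sum] at hd
    have hd1 : ∑ c ∈ s, n c * c.1 = -1 := by simpa [l3] using hd
    have := Finset.sum_nonneg hnn
    omega

/-- The three first multiplicities. -/
theorem sum_three (hk3 : 3 ≤ k) (m : Fin k → ℤ) :
    ∑ i : Fin k, (if (i : ℕ) < 3 then m i else 0) =
      m ⟨0, by omega⟩ + m ⟨1, by omega⟩ + m ⟨2, by omega⟩ := by
  classical
  have h : ∑ i : Fin k, (if (i : ℕ) < 3 then m i else 0) =
      ∑ i ∈ ({⟨0, by omega⟩, ⟨1, by omega⟩, ⟨2, by omega⟩} : Finset (Fin k)), m i := by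
    rw [← Finset.sum_filter]
    refine Finset.sum_congr ?_ fun _ _ => rfl
    ext i
    simp only [Finset.mem_filter, Finset.mem_univ, true_and, Finset.mem_insert,
      Finset.mem_singleton, Fin.ext_iff]
    omega
  rw [h, Finset.sum_insert, Finset.sum_insert, Finset.sum_singleton]
  · ring
  · simp [Fin.ext_iff]
  · simp [Fin.ext_iff]

/-- Classes orthogonal to the chain and to the line are multiples of `K`. -/
theorem perp_mult (hk3 : 3 ≤ k) {z : Cl ℤ (Fin k)}
    (hch : ∀ i j : Fin k, (i : ℕ) + 1 = j → ip z (ee i j) = 0) (hl : ip z (l3 k) = 0) :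
    z = (-(z.2 ⟨0, by omega⟩)) • KK := by
  have hconst : ∀ (n : ℕ) (hn : n < k), z.2 ⟨n, hn⟩ = z.2 ⟨0, by omega⟩ := by
    intro n
    induction n with
    | zero => intro _; rfl
    | succ n ih =>
      intro hn
      have h1 := hch ⟨n, by omega⟩ ⟨n + 1, hn⟩ rfl
      rw [ip_ee, ih (by omega)] at h1
      omega
  rw [ip_l3, sum_three hk3, hconst 1 (by omega), hconst 2 (by omega)] at hl
  refine Prod.ext ?_ (funext fun i => ?_)
  · simp only [KK, Prod.smul_fst, smul_eq_mul]; linarith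
  · have := hconst i i.2
    simp only [KK, Prod.smul_snd, Pi.smul_apply, smul_eq_mul]
    rw [show z.2 i = z.2 ⟨0, by omega⟩ from this]
    ring

/-- Classes of curves different from those in `E` have negative intersection with `K`. -/
theorem KK_neg (hk3 : 3 ≤ k) (hk : k ≤ 8) {z : Cl ℤ (Fin k)} (hd : 0 < z.1)
    (hch : ∀ i j : Fin k, (i : ℕ) + 1 = j → 0 ≤ ip z (ee i j)) (hl : 0 ≤ ip z (l3 k)) :
    ip KK z < 0 := by
  have ha : Antitone z.2 := anti_of_chain fun i j hij => by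
    have := hch i j hij
    rw [ip_ee] at this
    omega
  rw [ip_l3, sum_three hk3] at hl
  have h01 := ha (show (⟨0, by omega⟩ : Fin k) ≤ ⟨1, by omega⟩ from by simp [Fin.le_def])
  have h12 := ha (show (⟨1, by omega⟩ : Fin k) ≤ ⟨2, by omega⟩ from by simp [Fin.le_def])
  set a := z.2 ⟨0, by omega⟩ with hadef
  set b := z.2 ⟨1, by omega⟩
  set c := z.2 ⟨2, by omega⟩ with hcdef
  have hle : ∑ i, z.2 i ≤ ∑ i : Fin k, ((if (i : ℕ) < 3 then z.2 i else 0) +
      (if (i : ℕ) < 3 then 0 else c)) := by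
    refine Finset.sum_le_sum fun i _ => ?_
    split_ifs with h
    · omega
    · have := ha (show (⟨2, by omega⟩ : Fin k) ≤ i from by
        rw [Fin.le_def]; show 2 ≤ (i : ℕ); omega)
      omega
  have h5 : ∑ i : Fin k, (if (i : ℕ) < 3 then 0 else c) = ((k : ℤ) - 3) * c := by
    have h6 : ∑ i : Fin k, (if (i : ℕ) < 3 then 0 else c) =
        ∑ i : Fin k, (c - (if (i : ℕ) < 3 then 1 else 0) * c) :=
      Finset.sum_congr rfl fun i _ => by split_ifs <;> ring
    rw [h6, Finset.sum_sub_distrib, ← Finset.sum_mul, sum_lt 3 hk3, Finset.sum_const,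
      Finset.card_univ, Fintype.card_fin, nsmul_eq_mul]
    push_cast; ring
  rw [Finset.sum_add_distrib, sum_three hk3, h5] at hle
  rw [ip_KK]
  have hk' : (k : ℤ) ≤ 8 := by exact_mod_cast hk
  have hk3' : (3 : ℤ) ≤ k := by exact_mod_cast hk3
  rcases le_or_gt c 0 with h | h
  · nlinarith
  · nlinarith

/-- **RED.** If the classes of finitely many curves add up to `-K` and have nonnegative
intersection with all curves of `E` then there is only one of them. -/
theorem red (hk3 : 3 ≤ k) {κ : Type*} (D : Finset κ) (C : κ → Cl ℤ (Fin k))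
    (hsum : ∑ c ∈ D, C c = -KK)
    (hch : ∀ c ∈ D, ∀ i j : Fin k, (i : ℕ) + 1 = j → 0 ≤ ip (C c) (ee i j))
    (hl : ∀ c ∈ D, 0 ≤ ip (C c) (l3 k)) (hne : ∀ c ∈ D, C c ≠ 0) (hd : ∀ c ∈ D, 0 ≤ (C c).1) :
    ∃ c0, D = {c0} ∧ C c0 = -KK := by
  classical
  have key : ∀ z : Cl ℤ (Fin k), ip KK z = 0 → (∀ c ∈ D, 0 ≤ ip (C c) z) →
      ∀ c ∈ D, ip (C c) z = 0 := by
    intro z hz h
    refine (Finset.sum_eq_zero_iff_of_nonneg h).1 ?_
    rw [← ip_sum_left, hsum, ip_neg_left, hz, neg_zero]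
  have h1 : ∀ c ∈ D, C c = (-((C c).2 ⟨0, by omega⟩)) • KK := fun c hc =>
    perp_mult hk3 (fun i j hij => key _ (KK_ee i j) (fun c hc => hch c hc i j hij) c hc)
      (key _ (KK_l3 hk3) hl c hc)
  set m : κ → ℤ := fun c => (C c).2 ⟨0, by omega⟩ with hm
  have hmpos : ∀ c ∈ D, 1 ≤ m c := by
    intro c hc
    have h2 := congrArg Prod.fst (h1 c hc)
    have h3 : (C c).1 = 3 * m c := by
      rw [h2]; simp only [KK, Prod.smul_fst, smul_eq_mul, hm]; ring
    have h4 := hd c hc
    have h5 : m c ≠ 0 := by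
      intro h0
      apply hne c hc
      rw [h1 c hc]
      show (-(m c)) • KK = 0
      rw [h0, neg_zero, zero_smul]
    omega
  have hs1 : ∑ c ∈ D, m c = 1 := by
    have h2 := congrArg (fun z : Cl ℤ (Fin k) => z.2 ⟨0, by omega⟩) hsum
    simp only [Prod.snd_sum, Finset.sum_apply] at h2
    rw [show (∑ c ∈ D, m c) = ∑ c ∈ D, (C c).2 ⟨0, by omega⟩ from rfl, h2]
    simp [KK]
  obtain ⟨c0, hc0, h2, h3⟩ := one_term D m (fun c hc => by have := hmpos c hc; omega) hs1
  refine ⟨c0, ?_, ?_⟩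
  · ext c
    rw [Finset.mem_singleton]
    constructor
    · intro hc
      by_contra hcc
      have := h3 c hc hcc
      have := hmpos c hc
      omega
    · rintro rfl; exact hc0
  · rw [h1 c0 hc0]
    show (-(m c0)) • KK = -KK
    rw [h2]; simp

end LCY74
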