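import Pool.Agent.Helper74.LY.T0A
import Pool.Agent.Helper74.LY.T0Lat
import Pool.Agent.Helper48.LCY.Red

/-!
Row T0PT of MP_f7e214_ag, geometric half, part B: the contracted curves in the case of trivial
torsion.
-/

open Polynomial LCY LCY.H62 Pool.Agent.Helper82.LCY

namespace LCY74

noncomputable section

variable {L : Type} [Field L] [Algebra ℂ L] {N : ℕ} {ω : Bracket L} {x : Fin (N + 1) → L}
  {k : ℕ} {T : PStr L k}

theorem card_le (hS : State ω x T) : k ≤ 8 := hS.le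

/-- The shape of the classes of the contracted curves of degree zero. -/
theorem exc_shape (hTY : ST_TY) {v : DVal L} (hv : T.Cur v) (h0 : (T.cl v).1 = 0)
    (hK : ip KK (T.cl v) = 0) : ∃ i j, i < j ∧ T.cl v = ee i j ∧ IsOrd (T.R i) v := by
  classical
  rcases hTY L k T v hv with ⟨h1, -⟩ | ⟨-, p, hp, hpp, hlt, hgt⟩
  · omega
  · rw [ip_KK, h0] at hK
    have hs := Finset.add_sum_erase Finset.univ (T.cl v).2 (Finset.mem_univ p)
    have h1 : ∑ i ∈ Finset.univ.erase p, (T.cl v).2 i = 1 := by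
      rw [hpp] at hs; omega
    have hnn : ∀ i ∈ Finset.univ.erase p, 0 ≤ (T.cl v).2 i := by
      intro i hi
      have hne := Finset.ne_of_mem_erase hi
      rcases lt_or_gt_of_ne hne with h | h
      · rw [hlt i h]
      · rcases hgt i h with h2 | h2 <;> rw [h2] <;> norm_num
    obtain ⟨j, hj, hj1, hj2⟩ := one_term _ (T.cl v).2 hnn h1
    have hjne := Finset.ne_of_mem_erase hj
    have hpj : p < j := by
      rcases lt_or_gt_of_ne hjne with h | h
      · rw [hlt j h] at hj1; norm_num at hj1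
      · exact h
    refine ⟨p, j, hpj, ?_, hp⟩
    refine Prod.ext h0 (funext fun l => ?_)
    show (T.cl v).2 l = (if l = j then 1 else 0) - (if l = p then 1 else 0)
    by_cases hlp : l = p
    · rw [hlp, hpp, if_neg hpj.ne, if_pos rfl]; norm_num
    · by_cases hlj : l = j
      · rw [hlj, hj1, if_pos rfl, if_neg hjne]; norm_num
      · rw [if_neg hlp, if_neg hlj, hj2 l (Finset.mem_erase.2 ⟨hlp, Finset.mem_univ l⟩) hlj]
        norm_num

theorem lat_facts (hTY : ST_TY) (hC3 : ST_C3) (hS : State ω x T) (hz : ZSpan ω x T)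
    (hk3 : 3 ≤ k) :
    (∀ i j : Fin k, (i : ℕ) + 1 = j → ∃ v ∈ CSet ω x T, T.cl v = ee i j) ∧
      ∃ v ∈ CSet ω x T, T.cl v = l3 k := by
  have hK : ∀ c ∈ T.cl '' CSet ω x T, ip KK c = 0 := by
    rintro _ ⟨v, ⟨h1, h2, h3⟩, rfl⟩
    exact hS.con v h1 h2 h3
  have hC : ∀ c ∈ T.cl '' CSet ω x T, ∀ c' ∈ T.cl '' CSet ω x T, c ≠ c' → 0 ≤ ip c c' := by
    rintro _ ⟨v, ⟨h1, -⟩, rfl⟩ _ ⟨w, ⟨h2, -⟩, rfl⟩ hne
    exact hC3 L k T v w h1 h2 fun h => hne (H48.cl_same T h)
  have hdeg : ∀ c ∈ T.cl '' CSet ω x T, 0 ≤ c.1 := by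
    rintro _ ⟨v, ⟨h1, -⟩, rfl⟩
    rcases hTY L k T v h1 with h | h
    · exact le_trans zero_le_one h.1
    · exact h.1.ge
  have hexc : ∀ c ∈ T.cl '' CSet ω x T, c.1 = 0 → ∃ i j, i < j ∧ c = ee i j := by
    rintro _ ⟨v, ⟨h1, h2, h3⟩, rfl⟩ h0
    obtain ⟨i, j, hij, he, -⟩ := exc_shape hTY h1 h0 (hS.con v h1 h2 h3)
    exact ⟨i, j, hij, he⟩
  have hline : ∀ c ∈ T.cl '' CSet ω x T, c.1 = 1 → ∀ i, 0 ≤ c.2 i ∧ c.2 i ≤ 1 := by
    rintro _ ⟨v, ⟨h1, -⟩, rfl⟩ h0 i
    rcases hTY L k T v h1 with h | h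
    · have := h.2 i
      rw [h0] at this
      exact this
    · have := h.1
      omega
  refine ⟨fun i j hij => ?_, ?_⟩
  · obtain ⟨v, hv, h⟩ := chain_mem hS.le _ hK hC hz hdeg hexc i j hij
    exact ⟨v, hv, h⟩
  · obtain ⟨v, hv, h⟩ := line_mem hk3 hS.le _ hK hC hz hdeg hexc hline
    exact ⟨v, hv, h⟩

theorem through_of_mul {R : Subalgebra ℂ L} {v : DVal L} (h : 1 ≤ mul R v) : Through R v := by
  unfold mul at h
  split_ifs at h with h1 h2
  · omega
  · exact h2
  · omega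

/-- The exceptional curves of the chain. -/
theorem chain_geom (hTY : ST_TY) (h17 : ST_A17) (h18 : ST_A18) {v : DVal L} (hv : T.Cur v)
    {i j : Fin k} (hij : (i : ℕ) + 1 = j) (he : T.cl v = ee i j) :
    IsOrd (T.R i) v ∧ Through (T.R j) v ∧ Next (T.R i) (T.R j) := by
  have hne : i ≠ j := by
    intro h; rw [h] at hij; omega
  have h0 : (T.cl v).1 = 0 := by rw [he]; rfl
  have hO : IsOrd (T.R i) v := by
    rcases hTY L k T v hv with ⟨h1, -⟩ | ⟨-, p, hp, hpp, -⟩
    · omega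
    · have hpi : p = i := by
        rw [he] at hpp
        simp only [ee] at hpp
        by_contra hpi
        rw [if_neg hpi] at hpp
        split_ifs at hpp <;> omega
      rw [← hpi]; exact hp
  have hT : Through (T.R j) v := by
    apply through_of_mul
    have : mul (T.R j) v = (T.cl v).2 j := rfl
    rw [this, he]
    simp [ee, Ne.symm hne]
  refine ⟨hO, hT, ?_⟩
  have hval := T.valid j
  rw [← hij] at hval
  simp only [surf, dif_pos i.2] at hval
  rcases hval with hval | hval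
  · exfalso
    have hcur : (T.trunc i i.2.le).Cur v := by
      refine ⟨T.R j, ?_, hT⟩
      show T.R j ∈ surf T.S (fun l => T.R (Fin.castLE i.2.le l)) i
      rw [surf_congr T.S (fun l => T.R (Fin.castLE i.2.le l)) T.R i le_rfl i.2.le
        (fun m h2 h3 _ => rfl)]
      exact hval.1
    rcases (h17 L i (T.trunc i i.2.le) v).1 hcur with h | ⟨i', hi'⟩
    · exact (h18 L k T i v hO).1 h
    · have h1 := (h18 L k T i v hO).2.2.1 (Fin.castLE i.2.le i') hi'
      have h2 := congrArg Fin.val h1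
      rw [Fin.val_castLE] at h2
      have := i'.2
      omega
  · exact hval

end

end LCY74
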