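import Pool.Agent.Helper74.LY.T0D
import Pool.Agent.Helper98.LCY.T0pl
import Pool.Agent.Helper50.LCY.B2K
import Pool.Agent.Helper50.LCY.TY
import Pool.Agent.Helper36.LCY.M3
import Pool.Agent.Helper36.LCY.T0br
import Pool.Agent.Helper26.LC.FamStmts3

/-!
Row T0PT of MP_f7e214_ag, geometric half, part E: reduction, the plane with Weierstrass
coordinates, the last exceptional curve.
-/

open Polynomial LCY LCY.H62 Pool.Agent.Helper82.LCY

namespace LCY74

noncomputable section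

variable {L : Type} [Field L] [Algebra ℂ L] {N : ℕ} {ω : Bracket L} {x : Fin (N + 1) → L}
  {k : ℕ} {T : PStr L k}

theorem full_of_zspan (hz : ZSpan ω x T) : Full ω x T := fun b hb =>
  ⟨1, one_ne_zero, by rw [one_smul]; exact hz b hb⟩

/-- The divisor of poles is a single curve of class `-K`. -/
theorem t0red (hC3 : ST_C3) (hTY : ST_TY) (hB2 : ST_B2K) (hA : Adm ω x) (hS : State ω x T)
    (hz : ZSpan ω x T) (hk : 1 ≤ k) : ∃ D ∈ T.C, ω.Wt D (-1) ∧ T.cl D = -KK ∧
      ∀ D', T.Cur D' → ω.Wt D' (-1) → D'.Same D := by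
  have hex : ∀ v, ∃ n, ω.Wt v n := fun v => H73.exists_wt hA.trdeg hA.fg ω v
  choose w hw using hex
  have huniq : ∀ v n, ω.Wt v n → n = w v := fun v n hn =>
    (H73.wt_all hA.trdeg hA.fg ω v (hw v)).2.2.2 n hn
  obtain ⟨hwD, hwK⟩ := hB2 L k T ω w hw
    (fun Q v h1 h2 h3 => H36.wt_through (wtProp hA.trdeg hA.fg ω v (hw v)) Q h1 h2 h3)
    (by
      rintro Q v ⟨P, hP, hord⟩
      have h1 : v.Same Q.ord := isOrd_iff.1 ⟨P, hP, hord⟩
      have h2 := H62.wt_ord ω Q
      have h3 := huniq v _ (H48.wt_same (fun z hz => (h1 z hz).symm) h2)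
      rw [h1 _ (Q.br_ne ω)]
      omega)
  exact H48.red hC3 hTY hS (full_of_zspan hz) hk hw huniq hwD hwK

/-- The Weierstrass coordinates of the plane. -/
theorem wei_plane {S : Coord L} {R : Subalgebra ℂ L} {D E P g} (h : FlexD S R D E P g)
    (hR : R ∈ plane S) :
    ∃ (A B : ℂ) (S' Q : Coord L), plane S' = plane S ∧ (∀ v, deg S' v = deg S v) ∧
      IsInf S' E ∧ IsAdic S' (X ^ 2 - C (X ^ 3 + C A * X + C B) : ℂ[X][X]) D ∧
      Q.loc = R ∧ Q.x = S'.x / S'.y ∧ Q.y = S'.y⁻¹ ∧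
      ∃ g0 : ℂ[X][X], cf g0 (0, 0) = 0 ∧ cf g0 (0, 1) ≠ 0 ∧
        ev Q.x Q.y g0 = weiF S' A B / S'.y ^ 3 ∧ 0 < D.v (ev Q.x Q.y g0) := by
  obtain ⟨c, m, p, q, r, A, B, hc, hm, hW⟩ := wei_form (L := L) h.td h.c00 h.c10 h.c20 h.c01 h.c30
  have hid := hW P.x P.y
  have hm' : algebraMap ℂ L m ≠ 0 := by rw [Ne, map_eq_zero]; exact hm
  have hc' : algebraMap ℂ L c ≠ 0 := by rw [Ne, map_eq_zero]; exact hc
  -- the first change of coordinates
  obtain ⟨S', hSx, hSy, hSp, hSd⟩ := H27.st_PG L P !![0, 0, m; 0, 1, p; 1, q, r] (by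
    rw [Matrix.det_fin_three]
    simpa using hm)
  obtain ⟨Q, hQx, hQy, -, -⟩ := H27.st_PG L P !![1, q, r; 0, 1, p; 0, 0, m] (by
    rw [Matrix.det_fin_three]
    simpa using hm)
  have e1 : lin P ((!![0, 0, m; 0, 1, p; 1, q, r] : Matrix (Fin 3) (Fin 3) ℂ) 0) =
      algebraMap ℂ L m * P.y := by simp [lin]
  have e2 : lin P ((!![0, 0, m; 0, 1, p; 1, q, r] : Matrix (Fin 3) (Fin 3) ℂ) 1) =
      P.x + algebraMap ℂ L p * P.y := by simp [lin]
  have e3 : lin P ((!![0, 0, m; 0, 1, p; 1, q, r] : Matrix (Fin 3) (Fin 3) ℂ) 2) =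
      1 + algebraMap ℂ L q * P.x + algebraMap ℂ L r * P.y := by simp [lin]
  have e4 : lin P ((!![1, q, r; 0, 1, p; 0, 0, m] : Matrix (Fin 3) (Fin 3) ℂ) 0) =
      1 + algebraMap ℂ L q * P.x + algebraMap ℂ L r * P.y := by simp [lin]
  have e5 : lin P ((!![1, q, r; 0, 1, p; 0, 0, m] : Matrix (Fin 3) (Fin 3) ℂ) 1) =
      P.x + algebraMap ℂ L p * P.y := by simp [lin]
  have e6 : lin P ((!![1, q, r; 0, 1, p; 0, 0, m] : Matrix (Fin 3) (Fin 3) ℂ) 2) =
      algebraMap ℂ L m * P.y := by simp [lin]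
  rw [e1, e2] at hSx
  rw [e1, e3] at hSy
  rw [e4, e5] at hQx
  rw [e4, e6] at hQy
  -- the three forms
  set z' := algebraMap ℂ L m * P.y with hz'
  set x' := P.x + algebraMap ℂ L p * P.y with hx'
  set y' := 1 + algebraMap ℂ L q * P.x + algebraMap ℂ L r * P.y with hy'
  have hz0 : z' ≠ 0 := mul_ne_zero hm' P.y_ne
  have hyu := H98.unit_of_mx one_ne_zero (H98.aff_mx P 1 q r)
  rw [map_one, ← hy'] at hyu
  have hy0 : y' ≠ 0 := hyu.1
  -- values at D
  have hDt : Through P.loc D := (H81.st_A6 L P D).2 ⟨g, h.adic, h.c00⟩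
  have hDy : D.v y' = 0 := H98.nn_unit hDt.1 hy0 hyu.2.1 hyu.2.2
  have hDP : D.v P.y = 0 := by
    have h1 : ¬ g ∣ (X : ℂ[X][X]) := by
      intro hd
      have h2 := H27.tdeg_le_of_dvd P X_ne_zero hd
      have h3 := H27.tdeg_le td_X
      have h4 := h.tdeg
      omega
    have h2 := H81.IsAdic.zero_of h.adic h1
    rwa [ev_X] at h2
  have hDz : D.v z' = 0 := by
    rw [hz', D.map_const_mul hm P.y_ne, hDP]
  have hDg : D.v (ev P.x P.y g) = 1 := H81.IsAdic.self h.adic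
  -- the equation in the coordinates S'
  have hwei : weiF S' A B = ev P.x P.y g / (algebraMap ℂ L c * z' ^ 3) := by
    rw [hid, eq_div_iff (mul_ne_zero hc' (pow_ne_zero _ hz0))]
    unfold weiF
    rw [hSx, hSy]
    field_simp
  have hF : ev S'.x S'.y (X ^ 2 - C (X ^ 3 + C A * X + C B) : ℂ[X][X]) = weiF S' A B := by
    unfold weiF
    simp only [map_sub, map_pow, ev_X, map_add, map_mul, ev_CX, ev_CC]
    ring
  have hgne : ev P.x P.y g ≠ 0 := P.ne h.adic.1.ne_zero
  have hDw : D.v (weiF S' A B) = 1 := by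
    rw [hwei, D.map_div hgne (mul_ne_zero hc' (pow_ne_zero _ hz0)),
      D.map_const_mul hc (pow_ne_zero _ hz0), D.map_pow hz0, hDz, hDg]
    norm_num
  have hSn : weiF S' A B ≠ 0 := by
    rw [hwei]; exact div_ne_zero hgne (mul_ne_zero hc' (pow_ne_zero _ hz0))
  have hpl : plane S' = plane S := hSp.trans h.pl
  have hdg : ∀ v, deg S' v = deg S v := fun v => (hSd v).trans (h.dg v)
  have hRP : P.loc ∈ plane S' := by rw [hpl, h.loc]; exact hR
  refine ⟨A, B, S', Q, hpl, hdg, ?_, ?_, ?_, ?_, ?_, ?_⟩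
  · -- the flex tangent is the line at infinity
    have hEt : Through P.loc E := (H81.st_A6 L P E).2 ⟨X, h.line, by simp [cf]⟩
    rcases H98.plane_cur hRP hEt with h1 | ⟨f, h1⟩
    · exact h1
    · exfalso
      have h2 := H81.IsAdic.nonneg h1 (f := C X) (by rw [Ne, C_eq_zero]; exact X_ne_zero)
      rw [ev_CX, hSx] at h2
      have hx0 : ev P.x P.y (C X + C (C p) * X : ℂ[X][X]) = x' := by
        rw [map_add, map_mul, ev_CX, ev_CC, ev_X]
      have h3 : ¬ (X : ℂ[X][X]) ∣ (C X + C (C p) * X : ℂ[X][X]) := by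
        rw [X_dvd_iff]
        simp
      have h4 := H81.IsAdic.zero_of h.line h3
      rw [hx0] at h4
      have h5 := H81.IsAdic.self h.line
      rw [ev_X] at h5
      have hxn : x' ≠ 0 := by
        rw [← hx0]
        exact P.ne fun h0 => h3 (by rw [h0]; exact dvd_zero _)
      rw [E.map_div hxn hz0, h4, hz', E.map_const_mul hm P.y_ne, h5] at h2
      norm_num at h2
  · -- the cubic
    have hF0 : (X ^ 2 - C (X ^ 3 + C A * X + C B) : ℂ[X][X]) ≠ 0 := by
      intro h0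
      rw [h0, map_zero] at hF
      exact hSn hF.symm
    rcases H98.plane_cur hRP hDt with h1 | ⟨f, h1⟩
    · exfalso
      have h2 := h1 _ hF0
      rw [hF, hDw] at h2
      omega
    · have h2 : f ∣ (X ^ 2 - C (X ^ 3 + C A * X + C B) : ℂ[X][X]) := by
        rw [← H81.IsAdic.pos_iff h1 hF0, hF, hDw]
        exact one_pos
      have h3 : tdeg f = 3 := by
        have a1 := (H81.st_A8 L S' D f h1).1
        have a2 := (H81.st_A8 L P D g h.adic).1
        rw [hSd, a2, h.tdeg] at a1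
        omega
      have h4 : H27.TD 3 (X ^ 2 - C (X ^ 3 + C A * X + C B) : ℂ[X][X]) := by
        have e : (X ^ 2 - C (X ^ 3 + C A * X + C B) : ℂ[X][X]) =
            X ^ 2 + C (C (-1)) * ((C X) ^ 3 + (C (C A) * C X + C (C B))) := by
          simp only [C_add, C_mul, C_pow, C_neg, C_1]
          ring
        rw [e]
        exact H27.td_add ((H27.td_pow td_X 2).mono (by norm_num))
          (((H27.td_mul (H27.td_CC (-1)) (H27.td_add (H27.td_pow td_CX 3)
            (H27.td_add ((H27.td_mul (H27.td_CC A) td_CX).mono (by norm_num))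
              ((H27.td_CC B).mono (by norm_num)))))).mono (by norm_num))
      obtain ⟨q2, hq2⟩ := h2
      have hq0 : q2 ≠ 0 := by
        rintro rfl
        rw [mul_zero] at hq2
        exact hF0 hq2
      have h5 := H27.tdeg_mul S' h1.1.ne_zero hq0
      rw [← hq2, h3] at h5
      have h6 := H27.tdeg_le h4
      have h7 : IsUnit q2 := H27.isUnit_of_tdeg hq0 (by omega)
      refine H81.IsAdic.of_associated h1 ?_
      rw [hq2]
      exact (associated_mul_unit_right f q2 h7)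
  · -- the point
    rw [← h.loc, loc_eq_iff]
    have hl : Q.loc = P.loc := by
      rw [loc_eq_iff]
      have a1 := half_mx P 1 p q r m
      have a2 := half_mx Q 1 (-p / m) (-q) ((q * p - r) / m) (1 / m)
      have hden : algebraMap ℂ L 1 + algebraMap ℂ L (-q) * Q.x +
          algebraMap ℂ L ((q * p - r) / m) * Q.y = y'⁻¹ := by
        rw [hQx, hQy, map_div₀, map_sub, map_mul, map_neg, map_one, hz', hx']
        field_simp
        rw [hy']
        ring
      refine ⟨⟨?_, ?_⟩, ?_, ?_⟩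
      · have := a2.1
        have e : (algebraMap ℂ L 1 * Q.x + algebraMap ℂ L (-p / m) * Q.y) /
            (algebraMap ℂ L 1 + algebraMap ℂ L (-q) * Q.x +
              algebraMap ℂ L ((q * p - r) / m) * Q.y) = P.x := by
          rw [hden, hQx, hQy, map_div₀, map_neg, map_one, hz', hx']
          field_simp
          ring
        rwa [e] at this
      · have := a2.2
        have e : algebraMap ℂ L (1 / m) * Q.y /
            (algebraMap ℂ L 1 + algebraMap ℂ L (-q) * Q.x +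
              algebraMap ℂ L ((q * p - r) / m) * Q.y) = P.y := by
          rw [hden, hQy, map_div₀, map_one, hz']
          field_simp
        rwa [e] at this
      · have := a1.1
        rw [map_one, one_mul, ← hy', ← hx', ← hQx] at this
        exact this
      · have := a1.2
        rw [map_one, ← hy', ← hz', ← hQy] at this
        exact this
    exact loc_eq_iff.1 hl
  · rw [hQx, hSx, hSy]; field_simp
  · rw [hQy, hSy, inv_div]
  · have hSy0 : S'.y ≠ 0 := S'.y_ne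
    have hg0 : ev Q.x Q.y (X - C (X ^ 3) - C (C A * X) * X ^ 2 - C (C B) * X ^ 3 : ℂ[X][X]) =
        weiF S' A B / S'.y ^ 3 := by
      simp only [map_sub, map_mul, map_pow, ev_X, ev_CX, ev_CC]
      have e1 : Q.x = S'.x / S'.y := by rw [hQx, hSx, hSy]; field_simp
      have e2 : Q.y = 1 / S'.y := by rw [hQy, hSy, one_div, inv_div]
      rw [e1, e2]
      unfold weiF
      field_simp
    refine ⟨X - C (X ^ 3) - C (C A * X) * X ^ 2 - C (C B) * X ^ 3, ?_, ?_, hg0, ?_⟩
    · unfold cf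
      simp only [coeff_sub, coeff_C_mul, coeff_X_pow, coeff_X, coeff_C]
      norm_num
    · unfold cf
      simp only [coeff_sub, coeff_C_mul, coeff_X_pow, coeff_X, coeff_C]
      norm_num
    · rw [hg0, D.map_div hSn (pow_ne_zero _ hSy0), hDw, D.map_pow hSy0, hSy, D.map_div hy0 hz0,
        hDy, hDz]
      norm_num

/-- The last exceptional curve. -/
theorem t0exc (h17 : ST_A17) (h18 : ST_A18) (hTY : ST_TY) (hA : Adm ω x) (hS : State ω x T)
    (hk : 3 ≤ k) {D : DVal L} (hDcl : T.cl D = -KK)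
    (hu : ∀ D', T.Cur D' → ω.Wt D' (-1) → D'.Same D)
    (hN : ∀ i j : Fin k, (i : ℕ) + 1 = j → Next (T.R i) (T.R j))
    (hT : ∀ i, Through (T.R i) D) {Q : Coord L} (hQ : Q.loc = T.R ⟨0, by omega⟩)
    {g0 : ℂ[X][X]} (h00 : cf g0 (0, 0) = 0) (h01 : cf g0 (0, 1) ≠ 0)
    (hDg : 0 < D.v (ev Q.x Q.y g0)) {v : DVal L} (hv1 : v.v Q.x = 1) (hv2 : 0 < v.v Q.y)
    (hv3 : v.v (ev Q.x Q.y g0) = k) (hres : ResTr v.v (ev Q.x Q.y g0 / Q.x ^ k)) :
    CYp ω x v := by
  classical
  obtain ⟨R, hR⟩ : ∃ R : ℕ → Subalgebra ℂ L, ∀ (i : ℕ) (h : i < k), R i = T.R ⟨i, h⟩ :=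
    ⟨fun i => if h : i < k then T.R ⟨i, h⟩ else ⊤, fun i h => dif_pos h⟩
  have hk1 : k - 1 < k := by omega
  obtain ⟨P, g, hP, hPx, hg0, hg1, he, hDP, hvy⟩ := chain_coord R D Q g0
    (by rw [hQ, hR 0 (by omega)]) h00 h01 hDg v hv1 hv2 (k - 1)
    (fun j hj => by
      rw [hR j (by omega), hR (j + 1) (by omega)]
      exact hN _ _ rfl)
    (fun j hj => by rw [hR j (by omega)]; exact hT _)
    (by rw [hv3]; omega)
  have hQx := Q.x_ne
  have hO : IsOrd (T.R ⟨k - 1, hk1⟩) v := by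
    rw [← hR (k - 1) hk1, ← hP]
    refine ord_of_tangent hg0 hg1 (by rw [hPx, hv1]) hvy ?_
    have e : ev Q.x Q.y g0 / Q.x ^ k = ev P.x P.y g / P.x := by
      have hkk : Q.x ^ k = Q.x ^ (k - 1) * Q.x := by
        rw [← pow_succ]
        congr 1
        omega
      rw [← he, hPx, hkk, mul_div_mul_left _ _ (pow_ne_zero _ hQx)]
    rwa [e] at hres
  have hcur : T.Cur v := (h17 L k T v).2 (Or.inr ⟨_, hO⟩)
  have hd : (T.cl v).1 = 0 := (h18 L k T _ v hO).2.1
  have hK : ip KK (T.cl v) = -1 := by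
    rcases hTY L k T v hcur with ⟨h1, -⟩ | ⟨-, p, hp, hpp, hlt, -⟩
    · omega
    · have hpe := (h18 L k T _ v hO).2.2.1 p hp
      rw [ip_KK, hd]
      have hs : ∑ i, (T.cl v).2 i = -1 := by
        rw [← hpp]
        refine Finset.sum_eq_single p (fun i _ hi => hlt i ?_)
          (fun h => absurd (Finset.mem_univ p) h)
        rw [hpe, Fin.lt_def]
        have h2 : (i : ℕ) ≠ k - 1 := fun h => hi (by rw [hpe]; exact Fin.ext h)
        have := i.2
        show (i : ℕ) < k - 1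
        omega
      rw [hs]; norm_num
  have hwt : ω.Wt v 0 := by
    obtain ⟨n, hn⟩ := H73.exists_wt hA.trdeg hA.fg ω v
    rcases hS.wt v hcur n hn with h | h
    · rwa [h] at hn
    · rw [h] at hn
      have h1 := H48.cl_same T (hu v hcur hn)
      rw [h1, hDcl] at hd
      simp [KK] at hd
  refine ⟨fun hcon => ?_, hwt⟩
  have := hS.con v hcur hwt hcon
  omega

/-- **T0PT.** In the case of trivial torsion and `k ≥ 3` the plane has coordinates in which the
divisor of poles is a Weierstrass cubic. -/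
theorem t0pt (hC3 : ST_C3) (hA : Adm ω x) (hk : 3 ≤ k) (hS : State ω x T)
    (hz : ZSpan ω x T) : ∃ (S : Coord L) (c A B : ℂ), WeiOut ω x k S c A B := by
  have h16 := H98.st_A16
  have h17 := H98.st_A17
  have h18 := H98.st_A18
  have hTY := H50.st_TY h17 h18
  have hB2 := H50.st_B2K h16 h17
  obtain ⟨D, hDC, hDw, hDcl, hu⟩ := t0red hC3 hTY hB2 hA hS hz (by omega)
  obtain ⟨hch, E, hE, hEcl⟩ := lat_facts hTY hC3 hS hz hk
  have hDt : ∀ i, Through (T.R i) D := fun i => through_of_mul (by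
    have h1 : mul (T.R i) D = (T.cl D).2 i := rfl
    rw [h1, hDcl]
    simp [KK])
  have hN : ∀ i j : Fin k, (i : ℕ) + 1 = j → Next (T.R i) (T.R j) := by
    intro i j hij
    obtain ⟨v, hv, hvc⟩ := hch i j hij
    exact (chain_geom hTY h17 h18 hv.1 hij hvc).2.2
  have hEt : ∀ i : Fin k, (i : ℕ) < 3 → Through (T.R i) E := fun i hi => through_of_mul (by
    have h1 : mul (T.R i) E = (T.cl E).2 i := rfl
    rw [h1, hEcl]
    simp [l3, hi])
  have hk0 : 0 < k := by omega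
  have hk1 : 1 < k := by omega
  have hk2 : 2 < k := by omega
  have hR0 : T.R ⟨0, hk0⟩ ∈ plane T.S := T.valid ⟨0, hk0⟩
  obtain ⟨P, g, hF⟩ := flex_data T.S hR0 (hN ⟨0, hk0⟩ ⟨1, hk1⟩ rfl) (hN ⟨1, hk1⟩ ⟨2, hk2⟩ rfl)
    (hEt ⟨0, hk0⟩ (by simp)) (hEt ⟨1, hk1⟩ (by simp)) (hEt ⟨2, hk2⟩ (by simp))
    (by
      have h1 := congrArg Prod.fst hEcl
      exact h1)
    (hDt _) (hDt _) (hDt _)
    (by
      have h1 := congrArg Prod.fst hDcl
      exact h1)
    (by
      have h1 : mul (T.R ⟨0, hk0⟩) D = (T.cl D).2 ⟨0, hk0⟩ := rfl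
      rw [h1, hDcl]
      simp [KK])
  obtain ⟨A, B, S, Q, hpl, hdg, hinf, hadic, hQ, hQx, hQy, g0, h00, h01, hg0, hDg⟩ :=
    wei_plane hF hR0
  have hW : ∀ v, ∃ n, ω.Wt v n := fun v => H73.exists_wt hA.trdeg hA.fg ω v
  obtain ⟨c, hc, hbr⟩ := H36.t0br ω x hA S A B D hadic hDw (fun f v hf hns => by
    have hcur : T.Cur v := H98.cur_of_adic T hpl hf
    obtain ⟨n, hn⟩ := hW v
    rcases hS.wt v hcur n hn with h | h
    · rwa [h] at hn
    · rw [h] at hn
      exact absurd (hu v hcur hn) hns)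
  refine ⟨S, c, A, B, hc, ?_, hbr, ?_, ?_⟩
  · by_contra hAB
    rw [not_or, not_ne_iff, not_ne_iff] at hAB
    obtain ⟨rfl, rfl⟩ := hAB
    exact H36.t0cusp ω x hA S c hc hbr
  · intro f v hf hfF hv
    exact H98.t0pl ω x T hS hk hC3 hW S hpl hdg D E A B hu hadic hinf hE.1 hEcl hch f v hf hfF hv
  · intro v hv1 hv2 hv3 hv4
    have hSy := S.y_ne
    refine t0exc h17 h18 hTY hA hS hk hDcl hu hN hDt hQ h00 h01 hDg (v := v)
      (by rw [hQx]; exact hv2) ?_ (by rw [hg0]; exact hv3) (by rw [hg0, hQx]; exact hv4)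
    rw [hQy, v.map_inv hSy]
    omega

end

end LCY74
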