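import Pool.Agent.Helper74.LY.Cz

/-!
Normal form of a nonsingular plane cubic.
-/

open MvPolynomial

namespace LCY74

/-- A ternary cubic form with given coefficients, as a function. -/
def cub (a : Fin 10 → ℂ) (x : Fin 3 → ℂ) : ℂ :=
  a 0 * x 0 ^ 3 + a 1 * x 0 ^ 2 * x 1 + a 2 * x 0 ^ 2 * x 2 + a 3 * x 0 * x 1 ^ 2
    + a 4 * x 0 * x 1 * x 2 + a 5 * x 0 * x 2 ^ 2 + a 6 * x 1 ^ 3 + a 7 * x 1 ^ 2 * x 2
    + a 8 * x 1 * x 2 ^ 2 + a 9 * x 2 ^ 3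

theorem cubic_coeffs (F : MvPolynomial (Fin 3) ℂ) (hF : F.IsHomogeneous 3) :
    ∃ a : Fin 10 → ℂ, F = C (a 0) * X 0 ^ 3 + C (a 1) * X 0 ^ 2 * X 1 + C (a 2) * X 0 ^ 2 * X 2
      + C (a 3) * X 0 * X 1 ^ 2 + C (a 4) * X 0 * X 1 * X 2 + C (a 5) * X 0 * X 2 ^ 2
      + C (a 6) * X 1 ^ 3 + C (a 7) * X 1 ^ 2 * X 2 + C (a 8) * X 1 * X 2 ^ 2
      + C (a 9) * X 2 ^ 3 := by
  have key : ∀ i j k : ℕ, ∀ c : ℂ,
      (monomial (Finsupp.equivFunOnFinite.symm ![i, j, k]) c : MvPolynomial (Fin 3) ℂ)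
      = C c * X 0 ^ i * X 1 ^ j * X 2 ^ k := by
    intro i j k c
    rw [monomial_eq, Finsupp.prod_fintype _ _ (by simp)]
    simp [Fin.prod_univ_three, mul_assoc]
  have hsum : F = ∑ t ∈ Finset.Nat.antidiagonalTuple 3 3,
      monomial (Finsupp.equivFunOnFinite.symm t) (coeff (Finsupp.equivFunOnFinite.symm t) F) := by
    have h1 : F = ∑ d ∈ F.support, monomial d (coeff d F) := F.as_sum
    have h2 : ∑ d ∈ F.support, monomial d (coeff d F) =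
        ∑ d ∈ (Finset.Nat.antidiagonalTuple 3 3).map
          (Finsupp.equivFunOnFinite (α := Fin 3) (M := ℕ)).symm.toEmbedding,
          monomial d (coeff d F) := by
      refine Finset.sum_subset ?_ ?_
      · intro d hd
        rw [Finset.mem_map]
        refine ⟨Finsupp.equivFunOnFinite d, ?_, by simp⟩
        rw [Finset.Nat.mem_antidiagonalTuple]
        have := hF (mem_support_iff.1 hd)
        rw [Finsupp.weight_apply, Finsupp.sum_fintype _ _ (by simp)] at this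
        simpa using this
      · intro d _ hd
        rw [notMem_support_iff.1 hd, map_zero]
    rw [h2, Finset.sum_map] at h1
    exact h1
  have hlist : Finset.Nat.antidiagonalTuple 3 3 = {![3,0,0], ![2,1,0], ![2,0,1], ![1,2,0],
      ![1,1,1], ![1,0,2], ![0,3,0], ![0,2,1], ![0,1,2], ![0,0,3]} := by decide
  rw [hlist] at hsum
  refine ⟨![coeff (Finsupp.equivFunOnFinite.symm ![3,0,0]) F,
    coeff (Finsupp.equivFunOnFinite.symm ![2,1,0]) F,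
    coeff (Finsupp.equivFunOnFinite.symm ![2,0,1]) F,
    coeff (Finsupp.equivFunOnFinite.symm ![1,2,0]) F,
    coeff (Finsupp.equivFunOnFinite.symm ![1,1,1]) F,
    coeff (Finsupp.equivFunOnFinite.symm ![1,0,2]) F,
    coeff (Finsupp.equivFunOnFinite.symm ![0,3,0]) F,
    coeff (Finsupp.equivFunOnFinite.symm ![0,2,1]) F,
    coeff (Finsupp.equivFunOnFinite.symm ![0,1,2]) F,
    coeff (Finsupp.equivFunOnFinite.symm ![0,0,3]) F], ?_⟩
  conv_lhs => rw [hsum]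
  rw [Finset.sum_insert (by decide), Finset.sum_insert (by decide), Finset.sum_insert (by decide),
    Finset.sum_insert (by decide), Finset.sum_insert (by decide), Finset.sum_insert (by decide),
    Finset.sum_insert (by decide), Finset.sum_insert (by decide), Finset.sum_insert (by decide),
    Finset.sum_singleton]
  simp only [key]
  simp
  ring

/-- The gradient of the cubic. -/
def grad (a : Fin 10 → ℂ) (x : Fin 3 → ℂ) : Fin 3 → ℂ :=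
  ![3 * a 0 * x 0 ^ 2 + 2 * a 1 * x 0 * x 1 + 2 * a 2 * x 0 * x 2 + a 3 * x 1 ^ 2
      + a 4 * x 1 * x 2 + a 5 * x 2 ^ 2,
    a 1 * x 0 ^ 2 + 2 * a 3 * x 0 * x 1 + a 4 * x 0 * x 2 + 3 * a 6 * x 1 ^ 2
      + 2 * a 7 * x 1 * x 2 + a 8 * x 2 ^ 2,
    a 2 * x 0 ^ 2 + a 4 * x 0 * x 1 + 2 * a 5 * x 0 * x 2 + a 7 * x 1 ^ 2
      + 2 * a 8 * x 1 * x 2 + 3 * a 9 * x 2 ^ 2]

/-- The Hessian matrix of the cubic. -/
def hess (a : Fin 10 → ℂ) (x : Fin 3 → ℂ) : Matrix (Fin 3) (Fin 3) ℂ :=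
  !![6 * a 0 * x 0 + 2 * a 1 * x 1 + 2 * a 2 * x 2, 2 * a 1 * x 0 + 2 * a 3 * x 1 + a 4 * x 2,
      2 * a 2 * x 0 + a 4 * x 1 + 2 * a 5 * x 2;
    2 * a 1 * x 0 + 2 * a 3 * x 1 + a 4 * x 2, 2 * a 3 * x 0 + 6 * a 6 * x 1 + 2 * a 7 * x 2,
      a 4 * x 0 + 2 * a 7 * x 1 + 2 * a 8 * x 2;
    2 * a 2 * x 0 + a 4 * x 1 + 2 * a 5 * x 2, a 4 * x 0 + 2 * a 7 * x 1 + 2 * a 8 * x 2,
      2 * a 5 * x 0 + 2 * a 8 * x 1 + 6 * a 9 * x 2]

/-- The Hessian determinant vanishes together with the cubic somewhere. -/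
theorem exists_hess_zero (a : Fin 10 → ℂ) :
    ∃ p : Fin 3 → ℂ, p ≠ 0 ∧ cub a p = 0 ∧ (hess a p).det = 0 := by
  let A (i : Fin 10) : MvPolynomial (Fin 3) ℂ := C (a i)
  let f : MvPolynomial (Fin 3) ℂ := A 0 * X 0 ^ 3 + A 1 * X 0 ^ 2 * X 1 + A 2 * X 0 ^ 2 * X 2
    + A 3 * X 0 * X 1 ^ 2 + A 4 * X 0 * X 1 * X 2 + A 5 * X 0 * X 2 ^ 2 + A 6 * X 1 ^ 3
    + A 7 * X 1 ^ 2 * X 2 + A 8 * X 1 * X 2 ^ 2 + A 9 * X 2 ^ 3
  let g : MvPolynomial (Fin 3) ℂ := (!![6 * A 0 * X 0 + 2 * A 1 * X 1 + 2 * A 2 * X 2,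
      2 * A 1 * X 0 + 2 * A 3 * X 1 + A 4 * X 2, 2 * A 2 * X 0 + A 4 * X 1 + 2 * A 5 * X 2;
    2 * A 1 * X 0 + 2 * A 3 * X 1 + A 4 * X 2, 2 * A 3 * X 0 + 6 * A 6 * X 1 + 2 * A 7 * X 2,
      A 4 * X 0 + 2 * A 7 * X 1 + 2 * A 8 * X 2;
    2 * A 2 * X 0 + A 4 * X 1 + 2 * A 5 * X 2, A 4 * X 0 + 2 * A 7 * X 1 + 2 * A 8 * X 2,
      2 * A 5 * X 0 + 2 * A 8 * X 1 + 6 * A 9 * X 2]).det
  have hf : ∀ p, eval p f = cub a p := by
    intro p
    simp [f, A, cub]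
  have hg : ∀ p, eval p g = (hess a p).det := by
    intro p
    simp [g, A, hess, Matrix.det_fin_three]
  obtain ⟨p, hp, h1, h2⟩ := common_zero f g (by rw [hf]; simp [cub])
    (by rw [hg]; simp [hess, Matrix.det_fin_three])
  exact ⟨p, hp, by rw [← hf, h1], by rw [← hg, h2]⟩

/-- Expansion of the cubic along two vectors. -/
theorem cub_line (a : Fin 10 → ℂ) (p k : Fin 3 → ℂ) (s t : ℂ) :
    cub a (s • k + t • p) = s ^ 3 * cub a k
      + s ^ 2 * t * ((k 0 * (hess a p 0 0 * k 0 + hess a p 0 1 * k 1 + hess a p 0 2 * k 2)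
        + k 1 * (hess a p 1 0 * k 0 + hess a p 1 1 * k 1 + hess a p 1 2 * k 2)
        + k 2 * (hess a p 2 0 * k 0 + hess a p 2 1 * k 1 + hess a p 2 2 * k 2)) / 2)
      + s * t ^ 2 * (grad a p 0 * k 0 + grad a p 1 * k 1 + grad a p 2 * k 2)
      + t ^ 3 * cub a p := by
  simp [cub, hess, grad]
  ring

theorem euler_grad (a : Fin 10 → ℂ) (p k : Fin 3 → ℂ) :
    2 * (grad a p 0 * k 0 + grad a p 1 * k 1 + grad a p 2 * k 2) =
      p 0 * (hess a p 0 0 * k 0 + hess a p 0 1 * k 1 + hess a p 0 2 * k 2)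
        + p 1 * (hess a p 1 0 * k 0 + hess a p 1 1 * k 1 + hess a p 1 2 * k 2)
        + p 2 * (hess a p 2 0 * k 0 + hess a p 2 1 * k 1 + hess a p 2 2 * k 2) := by
  simp [hess, grad]
  ring

theorem euler_zero (a : Fin 10 → ℂ) (p : Fin 3 → ℂ) :
    grad a p 0 * p 0 + grad a p 1 * p 1 + grad a p 2 * p 2 = 3 * cub a p := by
  simp [grad, cub]
  ring

end LCY74
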