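import Mathlib

/-!
Two polynomials in three variables which vanish at the origin have another common zero.
-/

open MvPolynomial

namespace LCY74

/-- Kernel of an evaluation-like map into a domain is prime. -/
theorem height_three : (3 : ℕ∞) ≤ (RingHom.ker (aeval (fun _ : Fin 3 => (0 : ℂ)) :
    MvPolynomial (Fin 3) ℂ →ₐ[ℂ] ℂ)).height := by
  set P1 : Ideal (MvPolynomial (Fin 3) ℂ) := RingHom.ker
    (aeval ![0, X 1, X 2] : MvPolynomial (Fin 3) ℂ →ₐ[ℂ] MvPolynomial (Fin 3) ℂ) with hP1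
  set P2 : Ideal (MvPolynomial (Fin 3) ℂ) := RingHom.ker
    (aeval ![0, 0, X 2] : MvPolynomial (Fin 3) ℂ →ₐ[ℂ] MvPolynomial (Fin 3) ℂ) with hP2
  set P3 : Ideal (MvPolynomial (Fin 3) ℂ) := RingHom.ker (aeval (fun _ : Fin 3 => (0 : ℂ)) :
    MvPolynomial (Fin 3) ℂ →ₐ[ℂ] ℂ) with hP3
  have i1 : P1.IsPrime := RingHom.ker_isPrime _
  have i2 : P2.IsPrime := RingHom.ker_isPrime _
  have i3 : P3.IsPrime := RingHom.ker_isPrime _
  have h01 : (⊥ : Ideal (MvPolynomial (Fin 3) ℂ)) < P1 := by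
    rw [bot_lt_iff_ne_bot]
    intro h
    have hx : (X 0 : MvPolynomial (Fin 3) ℂ) ∈ P1 := by
      rw [hP1, RingHom.mem_ker]
      simp
    rw [h, Ideal.mem_bot] at hx
    exact X_ne_zero _ hx
  have h12 : P1 < P2 := by
    refine lt_of_le_of_ne ?_ ?_
    · intro f hf
      rw [hP1, RingHom.mem_ker] at hf
      rw [hP2, RingHom.mem_ker]
      have hc : (aeval ![0, 0, X 2] : MvPolynomial (Fin 3) ℂ →ₐ[ℂ] MvPolynomial (Fin 3) ℂ) =
        (aeval ![0, 0, X 2] : MvPolynomial (Fin 3) ℂ →ₐ[ℂ] MvPolynomial (Fin 3) ℂ).comp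
        (aeval ![0, X 1, X 2] : MvPolynomial (Fin 3) ℂ →ₐ[ℂ] MvPolynomial (Fin 3) ℂ) := by
        apply MvPolynomial.algHom_ext
        intro i
        fin_cases i <;> simp
      have hf' : (aeval ![0, X 1, X 2] : MvPolynomial (Fin 3) ℂ →ₐ[ℂ]
        MvPolynomial (Fin 3) ℂ) f = 0 := hf
      change (aeval ![0, 0, X 2] : MvPolynomial (Fin 3) ℂ →ₐ[ℂ] MvPolynomial (Fin 3) ℂ) f = 0
      rw [hc, AlgHom.comp_apply, hf', map_zero]
    · intro h
      have hx : (X 1 : MvPolynomial (Fin 3) ℂ) ∈ P2 := by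
        rw [hP2, RingHom.mem_ker]
        simp
      rw [← h, hP1, RingHom.mem_ker] at hx
      simp at hx
  have h23 : P2 < P3 := by
    refine lt_of_le_of_ne ?_ ?_
    · intro f hf
      rw [hP2, RingHom.mem_ker] at hf
      rw [hP3, RingHom.mem_ker]
      have hc : (aeval (fun _ : Fin 3 => (0 : ℂ)) : MvPolynomial (Fin 3) ℂ →ₐ[ℂ] ℂ) =
        (aeval (fun _ : Fin 3 => (0 : ℂ)) : MvPolynomial (Fin 3) ℂ →ₐ[ℂ] ℂ).comp
        (aeval ![0, 0, X 2] : MvPolynomial (Fin 3) ℂ →ₐ[ℂ] MvPolynomial (Fin 3) ℂ) := by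
        apply MvPolynomial.algHom_ext
        intro i
        fin_cases i <;> simp
      have hf' : (aeval ![0, 0, X 2] : MvPolynomial (Fin 3) ℂ →ₐ[ℂ]
        MvPolynomial (Fin 3) ℂ) f = 0 := hf
      change (aeval (fun _ : Fin 3 => (0 : ℂ)) : MvPolynomial (Fin 3) ℂ →ₐ[ℂ] ℂ) f = 0
      rw [hc, AlgHom.comp_apply, hf', map_zero]
    · intro h
      have hx : (X 2 : MvPolynomial (Fin 3) ℂ) ∈ P3 := by
        rw [hP3, RingHom.mem_ker]
        simp
      rw [← h, hP2, RingHom.mem_ker] at hx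
      simp at hx
  have e1 := Ideal.height_add_one_le_of_lt_of_isPrime h01
  have e2 := Ideal.height_add_one_le_of_lt_of_isPrime h12
  have e3 := Ideal.height_add_one_le_of_lt_of_isPrime h23
  rw [Ideal.height_bot] at e1
  calc (3 : ℕ∞) = ((0 + 1) + 1) + 1 := by norm_num
    _ ≤ (P1.height + 1) + 1 := by gcongr
    _ ≤ P2.height + 1 := by gcongr
    _ ≤ P3.height := e3

/-- Two polynomials in three variables that vanish at the origin have a common zero different
from the origin. -/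
theorem common_zero (f g : MvPolynomial (Fin 3) ℂ) (hf : eval 0 f = 0) (hg : eval 0 g = 0) :
    ∃ p : Fin 3 → ℂ, p ≠ 0 ∧ eval p f = 0 ∧ eval p g = 0 := by
  by_contra hcon
  push Not at hcon
  set m : Ideal (MvPolynomial (Fin 3) ℂ) := RingHom.ker (aeval (fun _ : Fin 3 => (0 : ℂ)) :
    MvPolynomial (Fin 3) ℂ →ₐ[ℂ] ℂ) with hm
  have i3 : m.IsPrime := RingHom.ker_isPrime _
  have hm' : ∀ q : MvPolynomial (Fin 3) ℂ, q ∈ m ↔ eval 0 q = 0 := by
    intro q
    rw [hm, RingHom.mem_ker]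
    rfl
  have hrad : (Ideal.span {f, g}).radical = m := by
    rw [← MvPolynomial.vanishingIdeal_zeroLocus_eq_radical (K := ℂ)]
    ext q
    rw [mem_vanishingIdeal_iff, hm']
    constructor
    · intro h
      refine h 0 ?_
      rw [mem_zeroLocus_iff]
      intro r hr
      have : Ideal.span {f, g} ≤ m := by
        rw [Ideal.span_le]
        intro r hr
        rcases hr with rfl | hr
        · exact (hm' _).2 hf
        · rw [Set.mem_singleton_iff] at hr
          rw [hr]; exact (hm' _).2 hg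
      exact (hm' _).1 (this hr)
    · intro h x hx
      rw [mem_zeroLocus_iff] at hx
      have h1 : eval x f = 0 := hx f (Ideal.subset_span (by simp))
      have h2 : eval x g = 0 := hx g (Ideal.subset_span (by simp))
      by_cases hx0 : x = 0
      · rw [hx0]; exact h
      · exact absurd h2 (hcon x hx0 h1)
  have hmin : m ∈ (Ideal.span {f, g}).minimalPrimes := by
    refine ⟨⟨i3, ?_⟩, ?_⟩
    · rw [← hrad]; exact Ideal.le_radical
    · rintro P ⟨hP, hIP⟩ _
      rw [← hrad]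
      exact hP.radical_le_iff.2 hIP
  have h1 := Ideal.height_le_card_of_mem_minimalPrimes_span (Set.toFinite _) hmin
  have h2 : (Set.ncard {f, g}) ≤ 2 := by
    have := Set.ncard_insert_le f {g}
    rw [Set.ncard_singleton] at this
    exact this
  have h3 : (3 : ℕ∞) ≤ 2 := by
    calc (3 : ℕ∞) ≤ m.height := height_three
      _ ≤ (Set.ncard {f, g} : ℕ) := h1
      _ ≤ 2 := by exact_mod_cast h2
  have : (3 : ℕ) ≤ 2 := by exact_mod_cast h3
  omega

end LCY74
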