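import Pool.Agent.Helper81.LCY.RowsA
import Pool.Agent.Helper98.LCY.LocC
import Pool.Agent.Helper26.LC.FamStmts2

/-!
Row T0PT of MP_f7e214_ag, geometric half, part A: infinitely near points along a smooth curve.
-/

open Polynomial LCY LCY.H62

namespace LCY74

noncomputable section

variable {L : Type} [Field L] [Algebra ℂ L]

theorem lp_one (g : ℂ[X][X]) : lp 1 g = C (cf g (1, 0)) + C (cf g (0, 1)) * X := by
  refine Polynomial.ext fun j => ?_
  rw [lp_coeff, coeff_add, coeff_C, coeff_C_mul, coeff_X]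
  rcases j with _ | _ | j
  · simp
  · simp
  · simp

theorem r0_bq_one {g : ℂ[X][X]} (hg : cf g (0, 0) = 0) (c : ℂ) :
    r0 (bq (some c) 1 g) = C (cf g (1, 0) + c * cf g (0, 1)) + C (cf g (0, 1)) * X := by
  rw [r0_bq_some (og_one.2 hg), lp_one]
  simp only [add_comp, mul_comp, C_comp, X_comp, C_add, C_mul]
  ring

theorem cf_bq_zero {g : ℂ[X][X]} (hg : cf g (0, 0) = 0) (c : ℂ) :
    cf (bq (some c) 1 g) (0, 0) = cf g (1, 0) + c * cf g (0, 1) := by
  rw [← r0_coeff, r0_bq_one hg]; simp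

theorem cf_bq_one {g : ℂ[X][X]} (hg : cf g (0, 0) = 0) (c : ℂ) :
    cf (bq (some c) 1 g) (0, 1) = cf g (0, 1) := by
  rw [← r0_coeff, r0_bq_one hg]; simp

theorem ev_bq {P : Coord L} {m : ℕ} {g : ℂ[X][X]} (hg : OG m g) (o : Option ℂ) :
    ev P.x P.y g = (P.st o).x ^ m * ev (P.st o).x (P.st o).y (bq o m g) := by
  rw [← P.ev_st o g, bl_eq hg, map_mul, map_pow, ev_CX]

theorem ev_bq_some {P : Coord L} {g : ℂ[X][X]} (hg : cf g (0, 0) = 0) (c : ℂ) :
    ev P.x P.y g = P.x * ev (P.st (some c)).x (P.st (some c)).y (bq (some c) 1 g) := by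
  have h := ev_bq (P := P) (og_one.2 hg) (some c)
  rw [pow_one] at h
  rw [h]
  congr 1
  exact P.st_some_x c

theorem not_centred {R : Subalgebra ℂ L} {v : DVal L} (h : Through R v) : ¬ Centred R v := by
  intro h1
  obtain ⟨-, z, hz, hz', hz0, hv⟩ := h
  have := h1.2 z hz hz0 hz'
  omega

/-- A curve through a point and through a point of its exceptional curve does not contain the
exceptional curve. -/
theorem val_st_x {P : Coord L} {D : DVal L} {o : Option ℂ} (hP : Through P.loc D)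
    (hS : Through (P.st o).loc D) : D.v (P.st o).x = 0 := by
  have h0 := (hS.1 _ (H62.x_mem (P.st o))).resolve_left (P.st o).x_ne
  by_contra hne
  have hpos : 0 < D.v (P.st o).x := by omega
  apply not_centred hP
  rw [H98.centred_iff]
  have hy : D.Int (P.st o).y := hS.1 _ (H62.y_mem (P.st o))
  cases o with
  | some c =>
    rw [P.st_some_x] at hpos
    rw [P.st_some_y] at hy
    refine ⟨hpos, ?_⟩
    have h1 : D.Int (P.y / P.x) := by
      have := D.int_add hy (D.int_const c)
      rwa [sub_add_cancel] at this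
    have h2 := h1.resolve_left (div_ne_zero P.y_ne P.x_ne)
    rw [D.map_div P.y_ne P.x_ne] at h2
    omega
  | none =>
    rw [P.st_none_x] at hpos
    rw [P.st_none_y] at hy
    refine ⟨?_, hpos⟩
    have h2 := hy.resolve_left (div_ne_zero P.x_ne P.y_ne)
    rw [D.map_div P.x_ne P.y_ne] at h2
    omega

/-- The direction of a smooth curve. -/
theorem step_dir {P : Coord L} {D : DVal L} {o : Option ℂ} {g : ℂ[X][X]} (hP : Through P.loc D)
    (hS : Through (P.st o).loc D) (hg0 : cf g (0, 0) = 0) (hg1 : cf g (0, 1) ≠ 0)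
    (hD : 0 < D.v (ev P.x P.y g)) :
    0 < D.v (ev (P.st o).x (P.st o).y (bq o 1 g)) ∧
      ∃ c, o = some c ∧ cf g (1, 0) + c * cf g (0, 1) = 0 := by
  have hx := val_st_x hP hS
  have hOG : OG 1 g := og_one.2 hg0
  have hgne : g ≠ 0 := H81.ne_of_cf0 hg1
  have hev := ev_bq (P := P) hOG o
  rw [pow_one] at hev
  have hbne : bq o 1 g ≠ 0 := by
    intro h
    rw [h, map_zero, mul_zero] at hev
    exact P.ne hgne hev
  have hpos : 0 < D.v (ev (P.st o).x (P.st o).y (bq o 1 g)) := by
    rw [hev, D.map_mul _ _ (P.st o).x_ne ((P.st o).ne hbne), hx, zero_add] at hD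
    exact hD
  refine ⟨hpos, ?_⟩
  have hcf : cf (bq o 1 g) (0, 0) = 0 := by
    by_contra hne
    have := H81.val_unit (P.st o) hS.1 hne
    omega
  cases o with
  | some c => exact ⟨c, rfl, by rw [← cf_bq_zero hg0]; exact hcf⟩
  | none =>
    exfalso
    rw [← r0_coeff, r0_bq_none hOG, lq_coeff, if_pos (Nat.zero_le _)] at hcf
    exact hg1 hcf

/-- Decomposition of the strict transform of a smooth curve. -/
theorem bq_split {P : Coord L} {g : ℂ[X][X]} {c : ℂ} (hg0 : cf g (0, 0) = 0)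
    (hc : cf g (1, 0) + c * cf g (0, 1) = 0) :
    ∃ h : ℂ[X][X], ev (P.st (some c)).x (P.st (some c)).y (bq (some c) 1 g) =
      algebraMap ℂ L (cf g (0, 1)) * (P.st (some c)).y +
        P.x * ev (P.st (some c)).x (P.st (some c)).y h := by
  obtain ⟨h, hh⟩ := split_X (bq (some c) 1 g)
  refine ⟨h, ?_⟩
  have h1 : (bq (some c) 1 g).map (evalRingHom 0) = C (cf g (0, 1)) * X := by
    have := r0_bq_one hg0 c
    rw [hc, C_0, zero_add] at this
    exact this
  rw [h1] at hh
  conv_lhs => rw [hh]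
  rw [map_add, map_mul, ev_mapC, map_mul, aeval_C, aeval_X, ev_CX, P.st_some_x]

theorem chain_coord (R : ℕ → Subalgebra ℂ L) (D : DVal L) (P0 : Coord L) (g0 : ℂ[X][X])
    (hR0 : P0.loc = R 0) (h00 : cf g0 (0, 0) = 0) (h01 : cf g0 (0, 1) ≠ 0)
    (hDg : 0 < D.v (ev P0.x P0.y g0)) (v : DVal L) (hv1 : v.v P0.x = 1) (hv2 : 0 < v.v P0.y) :
    ∀ i : ℕ, (∀ j, j < i → Next (R j) (R (j + 1))) → (∀ j, j ≤ i → Through (R j) D) →
      ((i : ℤ) + 1 ≤ v.v (ev P0.x P0.y g0)) →
      ∃ (P : Coord L) (g : ℂ[X][X]), P.loc = R i ∧ P.x = P0.x ∧ cf g (0, 0) = 0 ∧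
        cf g (0, 1) ≠ 0 ∧ P0.x ^ i * ev P.x P.y g = ev P0.x P0.y g0 ∧
        0 < D.v (ev P.x P.y g) ∧ 0 < v.v P.y := by
  intro i
  induction i with
  | zero =>
    intro _ _ _
    exact ⟨P0, g0, hR0, rfl, h00, h01, by rw [pow_zero, one_mul], hDg, hv2⟩
  | succ i ih =>
    intro hN hT hle
    push_cast at hle
    obtain ⟨P, g, hP, hPx, hg0, hg1, he, hDP, hvy⟩ := ih
      (fun j hj => hN j (by omega)) (fun j hj => hT j (by omega)) (by omega)
    have hnext : Next P.loc (R (i + 1)) := by rw [hP]; exact hN i (Nat.lt_succ_self i)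
    obtain ⟨o, ho⟩ := next_iff.1 hnext
    have h1 : Through P.loc D := by rw [hP]; exact hT i (Nat.le_succ i)
    have h2 : Through (P.st o).loc D := by rw [← ho]; exact hT (i + 1) le_rfl
    obtain ⟨hpos, c, rfl, hc⟩ := step_dir h1 h2 hg0 hg1 hDP
    have hev := ev_bq_some (P := P) hg0 c
    refine ⟨P.st (some c), bq (some c) 1 g, ho.symm, ?_, ?_, ?_, ?_, hpos, ?_⟩
    · rw [P.st_some_x, hPx]
    · rw [cf_bq_zero hg0, hc]
    · rw [cf_bq_one hg0]; exact hg1
    · rw [← he, hev, ← hPx]; ring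
    · have hgne : g ≠ 0 := H81.ne_of_cf0 hg1
      obtain ⟨h, hh⟩ := bq_split (P := P) hg0 hc
      have hxne := P.x_ne
      have hvx : v.v P.x = 1 := by rw [hPx, hv1]
      have hInty : v.Int (P.st (some c)).y := by
        rw [P.st_some_y]
        refine v.int_sub (Or.inr ?_) (v.int_const c)
        rw [v.map_div P.y_ne hxne, hvx]; omega
      have hIntx : v.Int (P.st (some c)).x := by
        rw [P.st_some_x]; exact Or.inr (by omega)
      have hbne : ev (P.st (some c)).x (P.st (some c)).y (bq (some c) 1 g) ≠ 0 := by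
        intro h0
        rw [h0, mul_zero] at hev
        exact P.ne hgne hev
      have hval : 0 < v.v (ev (P.st (some c)).x (P.st (some c)).y (bq (some c) 1 g)) := by
        have e1 := congrArg v.v he
        rw [v.map_mul _ _ (pow_ne_zero _ P0.x_ne) (P.ne hgne), v.map_pow P0.x_ne, hv1,
          hev, v.map_mul _ _ hxne hbne, hvx] at e1
        omega
      have h3 : v.Pos (algebraMap ℂ L (cf g (0, 1)) * (P.st (some c)).y) := by
        have e2 : algebraMap ℂ L (cf g (0, 1)) * (P.st (some c)).y =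
            ev (P.st (some c)).x (P.st (some c)).y (bq (some c) 1 g) +
              -(P.x * ev (P.st (some c)).x (P.st (some c)).y h) := by
          rw [hh]; ring
        rw [e2]
        refine v.pos_add (Or.inr hval) (v.pos_neg ?_)
        exact v.pos_mul_int (Or.inr (by omega)) (v.int_ev hIntx hInty h)
      have hcne : algebraMap ℂ L (cf g (0, 1)) ≠ 0 := by
        rw [Ne, map_eq_zero]; exact hg1
      have h4 := h3.resolve_left (mul_ne_zero hcne (P.st (some c)).y_ne)
      rw [v.map_const_mul hg1 (P.st (some c)).y_ne] at h4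
      exact h4

theorem resTr_add {v : DVal L} {t s : L} (ht : ResTr v.v t) (hs : v.Pos s) :
    ResTr v.v (t + s) := by
  have hti : v.Int t := by
    have h := ht X X_ne_zero
    rw [aeval_X] at h
    exact Or.inr h.2.ge
  have hdiff : ∀ P : ℂ[X], v.Pos (aeval (t + s) P - aeval t P) := by
    intro P
    induction P using Polynomial.induction_on' with
    | add p q hp hq =>
      rw [map_add, map_add]
      have := v.pos_add hp hq
      have e : aeval (t + s) p + aeval (t + s) q - (aeval t p + aeval t q) =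
          (aeval (t + s) p - aeval t p) + (aeval (t + s) q - aeval t q) := by ring
      rw [e]; exact this
    | monomial n a =>
      rw [aeval_monomial, aeval_monomial, ← mul_sub, mul_comm]
      refine v.pos_mul_int ?_ (v.int_const a)
      induction n with
      | zero => left; rw [pow_zero, pow_zero, sub_self]
      | succ n ih =>
        have e : (t + s) ^ (n + 1) - t ^ (n + 1) =
            ((t + s) ^ n - t ^ n) * (t + s) + s * t ^ n := by ring
        rw [e]
        exact v.pos_add (v.pos_mul_int ih (v.int_add hti hs.int))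
          (v.pos_mul_int hs (v.int_pow hti n))
  intro P hP
  obtain ⟨h1, h2⟩ := ht P hP
  have h3 := v.val_add_pos h1 h2 (hdiff P)
  rw [add_sub_cancel] at h3
  exact h3

theorem resTr_smul {v : DVal L} {t : L} {b : ℂ} (hb : b ≠ 0)
    (h : ResTr v.v (algebraMap ℂ L b * t)) : ResTr v.v t := by
  intro P hP
  have hQ : P.comp (C b⁻¹ * X) ≠ 0 := by
    intro h0
    have h1 : (P.comp (C b⁻¹ * X)).comp (C b * X) = P := by
      rw [comp_assoc, mul_comp, C_comp, X_comp, ← mul_assoc, ← C_mul, inv_mul_cancel₀ hb, C_1,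
        one_mul, comp_X]
    rw [h0, zero_comp] at h1
    exact hP h1.symm
  have h1 := h _ hQ
  have h2 : aeval (algebraMap ℂ L b * t) (P.comp (C b⁻¹ * X)) = aeval t P := by
    rw [aeval_comp, map_mul, aeval_C, aeval_X, ← mul_assoc, ← map_mul, inv_mul_cancel₀ hb,
      map_one, one_mul]
  rwa [h2] at h1

/-- A valuation centred at the point and tangent to the smooth curve to the right order with
transcendental residue is the order valuation. -/
theorem ord_of_tangent {P : Coord L} {v : DVal L} {g : ℂ[X][X]} (hg0 : cf g (0, 0) = 0)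
    (hg1 : cf g (0, 1) ≠ 0) (hvx : v.v P.x = 1) (hvy : 0 < v.v P.y)
    (hres : ResTr v.v (ev P.x P.y g / P.x)) : IsOrd P.loc v := by
  obtain ⟨c, hc⟩ : ∃ c : ℂ, cf g (1, 0) + c * cf g (0, 1) = 0 :=
    ⟨-(cf g (1, 0) / cf g (0, 1)), by field_simp; ring⟩
  obtain ⟨h, hh⟩ := bq_split (P := P) hg0 hc
  have hxne := P.x_ne
  have hev := ev_bq_some (P := P) hg0 c
  have hInty : v.Int (P.st (some c)).y := by
    rw [P.st_some_y]
    refine v.int_sub (Or.inr ?_) (v.int_const c)
    rw [v.map_div P.y_ne hxne, hvx]; omega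
  have hIntx : v.Int (P.st (some c)).x := by
    rw [P.st_some_x]; exact Or.inr (by omega)
  have hres2 : ResTr v.v (P.st (some c)).y := by
    rw [hev, mul_div_cancel_left₀ _ hxne, hh] at hres
    refine resTr_smul hg1 ?_
    have h1 := resTr_add hres (s := -(P.x * ev (P.st (some c)).x (P.st (some c)).y h))
      (v.pos_neg (v.pos_mul_int (Or.inr (by omega)) (v.int_ev hIntx hInty h)))
    rwa [add_neg_cancel_right] at h1
  refine ⟨P, rfl, fun f hf => ?_⟩
  have hOE := oe_ordn hf
  have hq := ev_bq (P := P) hOE.1 (some c)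
  obtain ⟨q, hq2⟩ := split_X (bq (some c) (ordn f) f)
  have h0 : r0 (bq (some c) (ordn f) f) ≠ 0 := (r0_bq_ne hOE (some c)).1
  obtain ⟨h1, h2⟩ := hres2 _ h0
  have h3 : ev (P.st (some c)).x (P.st (some c)).y (bq (some c) (ordn f) f) =
      aeval (P.st (some c)).y (r0 (bq (some c) (ordn f) f)) +
        (P.st (some c)).x * ev (P.st (some c)).x (P.st (some c)).y q := by
    conv_lhs => rw [hq2]
    rw [map_add, map_mul, ev_mapC, ev_CX]
    rfl
  have h4 := v.val_add_pos h1 h2 (v.pos_mul_int (a := (P.st (some c)).x)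
    (Or.inr (by rw [P.st_some_x]; omega)) (v.int_ev hIntx hInty q))
  rw [← h3] at h4
  rw [hq, v.map_mul _ _ (pow_ne_zero _ (P.st (some c)).x_ne) h4.1, h4.2,
    v.map_pow (P.st (some c)).x_ne, P.st_some_x, hvx]
  ring

/-- The place of an irreducible polynomial is its adic valuation. -/
theorem adic_of_place {P : Coord L} {g : ℂ[X][X]} {v : DVal L} (hg : Irreducible g)
    (h : IsPlaceOf P g v) : IsAdic P g v := by
  have hgne := P.ne hg.ne_zero
  have hpow : ∀ (n : ℕ) (f : ℂ[X][X]), ¬ g ∣ f →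
      v.v (ev P.x P.y (g ^ n * f)) = n * v.v (ev P.x P.y g) := by
    intro n f hf
    have hf0 : f ≠ 0 := by
      rintro rfl
      exact hf (dvd_zero _)
    rw [map_mul, map_pow, v.map_mul _ _ (pow_ne_zero _ hgne) (P.ne hf0), v.map_pow hgne,
      h.2 f hf, add_zero]
  have h1 : v.v (ev P.x P.y g) = 1 := by
    obtain ⟨π, hπ, hv⟩ := v.exists_unif
    obtain ⟨⟨a, b⟩, ha, hb, hab⟩ := rep P hπ
    obtain ⟨m, a', ha', h2⟩ : ∃ (m : ℕ) (a' : ℂ[X][X]), a = g ^ m * a' ∧ ¬ g ∣ a' := by
      obtain ⟨c, h1, h2⟩ := (fin_mult hg.prime ha).exists_eq_pow_mul_and_not_dvd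
      exact ⟨_, c, h1, h2⟩
    obtain ⟨n, b', hb', h3⟩ : ∃ (m : ℕ) (a' : ℂ[X][X]), b = g ^ m * a' ∧ ¬ g ∣ a' := by
      obtain ⟨c, h1, h2⟩ := (fin_mult hg.prime hb).exists_eq_pow_mul_and_not_dvd
      exact ⟨_, c, h1, h2⟩
    dsimp only at ha hb hab
    rw [hab, v.map_div (P.ne ha) (P.ne hb), ha', hb', hpow m a' h2, hpow n b' h3] at hv
    have h4 : ((m : ℤ) - n) * v.v (ev P.x P.y g) = 1 := by linarith
    have h5 := h.1
    rcases Int.mul_eq_one_iff_eq_one_or_neg_one.1 h4 with h6 | h6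
    · exact h6.2
    · omega
  refine ⟨hg, fun n f hf => ?_⟩
  rw [hpow n f hf, h1, mul_one]

end

end LCY74
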