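import Pool.Agent.Helper74.LY.T0B
import Pool.Agent.Helper27.LCY.PG

/-!
Row T0PT of MP_f7e214_ag, geometric half, part C: coordinates at the flex.
-/

open Polynomial LCY LCY.H62 Pool.Agent.Helper82.LCY

namespace LCY74

noncomputable section

variable {L : Type} [Field L] [Algebra ℂ L]

theorem exists_compl {α β : ℂ} (h : α ≠ 0 ∨ β ≠ 0) : ∃ γ δ : ℂ, γ * β - δ * α ≠ 0 := by
  by_cases hβ : β = 0
  · exact ⟨0, 1, by
      have := h.resolve_right (fun h => h hβ)
      simpa using this⟩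
  · exact ⟨1, 0, by simpa using hβ⟩

/-- Linear change of coordinates making a given linear form the second coordinate. -/
theorem straighten (Q : Coord L) {α β : ℂ} (h : α ≠ 0 ∨ β ≠ 0) :
    ∃ P : Coord L, P.y = algebraMap ℂ L α * Q.x + algebraMap ℂ L β * Q.y ∧ P.loc = Q.loc ∧
      plane P = plane Q ∧ ∀ v, deg P v = deg Q v := by
  obtain ⟨γ, δ, hΔ⟩ := exists_compl h
  obtain ⟨P, hx, hy, h1, h2⟩ := H27.st_PG L Q !![1, 0, 0; 0, γ, δ; 0, α, β] (by
    rw [Matrix.det_fin_three]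
    simpa using hΔ)
  have e0 : lin Q ((!![1, 0, 0; 0, γ, δ; 0, α, β] : Matrix (Fin 3) (Fin 3) ℂ) 0) = 1 := by
    simp [lin]
  have e1 : lin Q ((!![1, 0, 0; 0, γ, δ; 0, α, β] : Matrix (Fin 3) (Fin 3) ℂ) 1) =
      algebraMap ℂ L γ * Q.x + algebraMap ℂ L δ * Q.y := by
    simp [lin]
  have e2 : lin Q ((!![1, 0, 0; 0, γ, δ; 0, α, β] : Matrix (Fin 3) (Fin 3) ℂ) 2) =
      algebraMap ℂ L α * Q.x + algebraMap ℂ L β * Q.y := by
    simp [lin]
  rw [e0, div_one, e1] at hx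
  rw [e0, div_one, e2] at hy
  refine ⟨P, hy, ?_, h1, h2⟩
  have hΔ' : algebraMap ℂ L (γ * β - δ * α) ≠ 0 := by rw [Ne, map_eq_zero]; exact hΔ
  rw [map_sub, map_mul, map_mul] at hΔ'
  have comb : ∀ (U : Coord L) (a b : ℂ), U.Mx (algebraMap ℂ L a * U.x + algebraMap ℂ L b * U.y) :=
    fun U a b => H98.mx_add (H98.mx_mul' (U.loc.algebraMap_mem _) (H98.mx_x U))
      (H98.mx_mul' (U.loc.algebraMap_mem _) (H98.mx_y U))
  rw [loc_eq_iff]
  refine ⟨⟨?_, ?_⟩, ?_, ?_⟩
  · have e : Q.x = algebraMap ℂ L (β / (γ * β - δ * α)) * P.x +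
        algebraMap ℂ L (-δ / (γ * β - δ * α)) * P.y := by
      rw [hx, hy, map_div₀, map_div₀, map_sub, map_mul, map_mul, map_neg,
        div_mul_eq_mul_div, div_mul_eq_mul_div, ← add_div, eq_div_iff hΔ']
      ring
    rw [e]; exact comb P _ _
  · have e : Q.y = algebraMap ℂ L (-α / (γ * β - δ * α)) * P.x +
        algebraMap ℂ L (γ / (γ * β - δ * α)) * P.y := by
      rw [hx, hy, map_div₀, map_div₀, map_sub, map_mul, map_mul, map_neg,
        div_mul_eq_mul_div, div_mul_eq_mul_div, ← add_div, eq_div_iff hΔ']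
      ring
    rw [e]; exact comb P _ _
  · rw [hx]; exact comb Q _ _
  · rw [hy]; exact comb Q _ _

/-- The strict transform of a curve vanishes at the points of the blow-up through which it
passes. -/
theorem strict_zero {P : Coord L} {D : DVal L} {o : Option ℂ} {g : ℂ[X][X]}
    (hP : Through P.loc D) (hS : Through (P.st o).loc D) (hg0 : cf g (0, 0) = 0) (hgne : g ≠ 0)
    (hD : 0 < D.v (ev P.x P.y g)) :
    0 < D.v (ev (P.st o).x (P.st o).y (bq o 1 g)) ∧ cf (bq o 1 g) (0, 0) = 0 := by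
  have hx := val_st_x hP hS
  have hev := ev_bq (P := P) (og_one.2 hg0) o
  rw [pow_one] at hev
  have hbne : bq o 1 g ≠ 0 := by
    intro h
    rw [h, map_zero, mul_zero] at hev
    exact P.ne hgne hev
  have hpos : 0 < D.v (ev (P.st o).x (P.st o).y (bq o 1 g)) := by
    rw [hev, D.map_mul _ _ (P.st o).x_ne ((P.st o).ne hbne), hx, zero_add] at hD
    exact hD
  refine ⟨hpos, ?_⟩
  by_contra hne
  have := H81.val_unit (P.st o) hS.1 hne
  omega

theorem cf_bq_one_zero (g : ℂ[X][X]) (hg0 : cf g (0, 0) = 0) :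
    cf (bq (some 0) 1 g) (1, 0) = cf g (2, 0) := by
  have h1 : ∀ e : ℕ × ℕ, cf (C (C (cf g e)) * (C X ^ (e.1 + e.2 - 1) *
      (X + C (C 0)) ^ e.2) : ℂ[X][X]) (1, 0) = if e = (2, 0) then cf g e else 0 := by
    intro e
    rw [C_0, C_0, add_zero, cf_CC_mul]
    have h2 : cf (C X ^ (e.1 + e.2 - 1) * X ^ e.2 : ℂ[X][X]) (1, 0) =
        if e.1 + e.2 - 1 = 1 ∧ e.2 = 0 then 1 else 0 := by
      unfold cf
      rw [← C_pow, coeff_C_mul, coeff_X_pow]
      by_cases h : e.2 = 0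
      · rw [if_pos h.symm, mul_one, coeff_X_pow]
        by_cases h' : e.1 + e.2 - 1 = 1
        · rw [if_pos h'.symm, if_pos ⟨h', h⟩]
        · rw [if_neg (fun h2 => h' h2.symm), if_neg (fun h2 => h' h2.1)]
      · rw [if_neg (fun h2 => h h2.symm), mul_zero, if_neg (fun h2 => h h2.2)]
        rfl
    rw [h2]
    by_cases h : e = (2, 0)
    · subst h; simp
    · rw [if_neg h]
      split_ifs with h3
      · exfalso
        apply h
        exact Prod.ext (by dsimp only; omega) (by dsimp only; omega)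
      · rw [mul_zero]
  have h3 : cf (bq (some 0) 1 g) (1, 0) =
      ∑ e ∈ bs g, cf (C (C (cf g e)) * (C X ^ (e.1 + e.2 - 1) *
      (X + C (C 0)) ^ e.2) : ℂ[X][X]) (1, 0) := by
    unfold bq cf
    rw [finsetSum_coeff, finsetSum_coeff]
  rw [h3, Finset.sum_congr rfl (fun e _ => h1 e), Finset.sum_ite_eq']
  split_ifs with h4
  · rfl
  · by_contra h5
    exact h4 (mem_bs.2 (Ne.symm h5))

/-- The first coefficients of the equation of a curve having a contact of order three with the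
first axis. -/
theorem flex_coord {P : Coord L} {R1 R2 : Subalgebra ℂ L} (hN1 : Next P.loc R1)
    (hN2 : Next R1 R2) {v D : DVal L} (hv0 : Through P.loc v) (hv1 : Through R1 v)
    (hv2 : Through R2 v) (hvy : 0 < v.v P.y) (hD0 : Through P.loc D) (hD1 : Through R1 D)
    (hD2 : Through R2 D) {g : ℂ[X][X]} (hg : IsAdic P g D) (hg0 : cf g (0, 0) = 0) :
    cf g (1, 0) = 0 ∧ cf g (2, 0) = 0 := by
  have cX0 : cf (X : ℂ[X][X]) (0, 0) = 0 := by simp [cf]
  have cX1 : cf (X : ℂ[X][X]) (0, 1) = 1 := by simp [cf]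
  have cX2 : cf (X : ℂ[X][X]) (1, 0) = 0 := by simp [cf]
  obtain ⟨o, ho⟩ := next_iff.1 hN1
  rw [ho] at hv1 hD1
  obtain ⟨-, c, rfl, hc⟩ := step_dir (g := X) hv0 hv1 cX0 (by rw [cX1]; exact one_ne_zero)
    (by rw [ev_X]; exact hvy)
  rw [cX1, cX2, zero_add, mul_one] at hc
  subst hc
  have hgD : 0 < D.v (ev P.x P.y g) := by rw [H81.IsAdic.self hg]; exact one_pos
  obtain ⟨hp1, hz1⟩ := strict_zero hD0 hD1 hg0 hg.1.ne_zero hgD
  rw [cf_bq_zero hg0, zero_mul, add_zero] at hz1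
  refine ⟨hz1, ?_⟩
  set P1 := P.st (some 0) with hP1
  rw [ho] at hN2
  obtain ⟨o', ho'⟩ := next_iff.1 hN2
  rw [ho'] at hv2 hD2
  have hvx : v.v P.x = 0 := by
    have := val_st_x hv0 hv1
    rwa [P.st_some_x] at this
  have hvy1 : 0 < v.v P1.y := by
    rw [hP1, P.st_some_y, map_zero, sub_zero, v.map_div P.y_ne P.x_ne, hvx, sub_zero]
    exact hvy
  obtain ⟨-, c, rfl, hc⟩ := step_dir (g := X) hv1 hv2 cX0 (by rw [cX1]; exact one_ne_zero)
    (by rw [ev_X]; exact hvy1)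
  rw [cX1, cX2, zero_add, mul_one] at hc
  subst hc
  have hz10 : cf (bq (some 0) 1 g) (0, 0) = 0 := by
    rw [cf_bq_zero hg0, hz1]; ring
  have hbne : bq (some 0) 1 g ≠ 0 := by
    intro h
    have h2 := ev_bq_some (P := P) hg0 0
    rw [h, map_zero, mul_zero] at h2
    exact P.ne hg.1.ne_zero h2
  obtain ⟨-, hz2⟩ := strict_zero hD1 hD2 hz10 hbne hp1
  rw [cf_bq_zero hz10, zero_mul, add_zero, cf_bq_one_zero g hg0] at hz2
  exact hz2

/-- The expansion of a polynomial of degree at most three. -/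
theorem ev_cubic {g : ℂ[X][X]} (h : ∀ e, cf g e ≠ 0 → e.1 + e.2 ≤ 3) (x y : L) :
    ev x y g = algebraMap ℂ L (cf g (0, 0)) + algebraMap ℂ L (cf g (1, 0)) * x +
      algebraMap ℂ L (cf g (0, 1)) * y + algebraMap ℂ L (cf g (2, 0)) * x ^ 2 +
      algebraMap ℂ L (cf g (1, 1)) * x * y + algebraMap ℂ L (cf g (0, 2)) * y ^ 2 +
      algebraMap ℂ L (cf g (3, 0)) * x ^ 3 + algebraMap ℂ L (cf g (2, 1)) * x ^ 2 * y +
      algebraMap ℂ L (cf g (1, 2)) * x * y ^ 2 + algebraMap ℂ L (cf g (0, 3)) * y ^ 3 := by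
  have h0 : ∀ e : ℕ × ℕ, 3 < e.1 + e.2 → cf g e = 0 := by
    intro e he
    by_contra hne
    have := h e hne
    omega
  have h1 : ev x y g = ∑ e ∈ Finset.range 4 ×ˢ Finset.range 4,
      algebraMap ℂ L (cf g e) * x ^ e.1 * y ^ e.2 := by
    rw [ev_eq_sum]
    refine Finset.sum_subset (fun e he => ?_) (fun e _ he => ?_)
    · have := h e (mem_bs.1 he)
      rw [Finset.mem_product, Finset.mem_range, Finset.mem_range]
      omega
    · have : cf g e = 0 := by
        by_contra hne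
        exact he (mem_bs.2 hne)
      rw [this, map_zero, zero_mul, zero_mul]
  rw [h1, Finset.sum_product]
  simp only [Finset.sum_range_succ, Finset.sum_range_zero]
  rw [h0 (1, 3) (by norm_num), h0 (2, 2) (by norm_num), h0 (2, 3) (by norm_num),
    h0 (3, 1) (by norm_num), h0 (3, 2) (by norm_num), h0 (3, 3) (by norm_num)]
  simp only [map_zero, pow_zero, pow_one]
  ring

end

end LCY74
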