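import Pool.Agent.Helper74.LY.T0C

/-!
Row T0PT of MP_f7e214_ag, geometric half, part D: coordinates at the flex, Weierstrass form.
-/

open Polynomial LCY LCY.H62 Pool.Agent.Helper82.LCY

namespace LCY74

noncomputable section

variable {L : Type} [Field L] [Algebra ℂ L]

theorem td_X : H27.TD 1 (X : ℂ[X][X]) := by
  intro e he
  unfold cf at he
  rw [coeff_X] at he
  split_ifs at he with h
  · rw [coeff_one] at he
    split_ifs at he with h'
    · omega
    · exact absurd rfl he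
  · exact absurd (coeff_zero _) he

theorem td_CX : H27.TD 1 (C X : ℂ[X][X]) := by
  intro e he
  unfold cf at he
  rw [coeff_C] at he
  split_ifs at he with h
  · rw [coeff_X] at he
    split_ifs at he with h'
    · omega
    · exact absurd rfl he
  · exact absurd (coeff_zero _) he

/-- A polynomial of degree one vanishing at the origin. -/
theorem ev_line {g : ℂ[X][X]} (h : H27.TD 1 g) (h0 : cf g (0, 0) = 0) (x y : L) :
    ev x y g = algebraMap ℂ L (cf g (1, 0)) * x + algebraMap ℂ L (cf g (0, 1)) * y := by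
  have h1 : ∀ e : ℕ × ℕ, 1 < e.1 + e.2 → cf g e = 0 := by
    intro e he
    by_contra hne
    have := h e hne
    omega
  rw [ev_cubic (fun e he => (h e he).trans (by norm_num)), h0, h1 (2, 0) (by norm_num),
    h1 (1, 1) (by norm_num), h1 (0, 2) (by norm_num), h1 (3, 0) (by norm_num),
    h1 (2, 1) (by norm_num), h1 (1, 2) (by norm_num), h1 (0, 3) (by norm_num)]
  simp only [map_zero, zero_mul, add_zero, zero_add]

/-- The coordinates at the flex. -/
structure FlexD (S : Coord L) (R : Subalgebra ℂ L) (D E : DVal L) (P : Coord L)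
    (g : ℂ[X][X]) : Prop where
  loc : P.loc = R
  pl : plane P = plane S
  dg : ∀ v, deg P v = deg S v
  line : IsAdic P X E
  adic : IsAdic P g D
  td : H27.TD 3 g
  tdeg : tdeg g = 3
  c00 : cf g (0, 0) = 0
  c10 : cf g (1, 0) = 0
  c20 : cf g (2, 0) = 0
  c01 : cf g (0, 1) ≠ 0
  c30 : cf g (3, 0) ≠ 0

theorem flex_data (S : Coord L) {R0 R1 R2 : Subalgebra ℂ L} (hR0 : R0 ∈ plane S)
    (hN1 : Next R0 R1) (hN2 : Next R1 R2) {D E : DVal L} (hE0 : Through R0 E)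
    (hE1 : Through R1 E) (hE2 : Through R2 E) (hEd : deg S E = 1) (hD0 : Through R0 D)
    (hD1 : Through R1 D) (hD2 : Through R2 D) (hDd : deg S D = 3) (hDm : mul R0 D = 1) :
    ∃ P g, FlexD S R0 D E P g := by
  obtain ⟨A, Q, hdet, hQ, hx, hy⟩ := hR0
  obtain ⟨Q', hx', hy', hpl, hdg⟩ := H27.st_PG L S A hdet
  have hloc : Q'.loc = R0 := by
    rw [← hQ]
    exact H98.coord_eta (hx'.trans hx.symm) (hy'.trans hy.symm)
  rw [← hloc] at hE0
  obtain ⟨l, hl, hl0⟩ := (H81.st_A6 L Q' E).1 hE0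
  have hl1 : tdeg l = 1 := by
    have h1 := (H81.st_A8 L Q' E l hl).1
    rw [hdg, hEd] at h1
    omega
  have hltd : H27.TD 1 l := by
    have h1 := H27.td_tdeg l
    rwa [hl1] at h1
  have hev := ev_line hltd hl0 Q'.x Q'.y
  have hne : cf l (1, 0) ≠ 0 ∨ cf l (0, 1) ≠ 0 := by
    by_contra hc
    rw [not_or, not_ne_iff, not_ne_iff] at hc
    rw [hc.1, hc.2, map_zero, zero_mul, zero_mul, add_zero] at hev
    exact Q'.ne hl.1.ne_zero hev
  obtain ⟨P, hPy, hPl, hPp, hPd⟩ := straighten Q' hne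
  have hPE : IsAdic P X E := by
    have h0 : Through P.loc E := by rw [hPl]; exact hE0
    obtain ⟨l', hl', -⟩ := (H81.st_A6 L P E).1 h0
    have h1 : l' ∣ X := by
      rw [← H81.IsAdic.pos_iff hl' X_ne_zero, ev_X, hPy, ← hev, H81.IsAdic.self hl]
      exact one_pos
    exact H81.IsAdic.of_associated hl' (hl'.1.associated_of_dvd irreducible_X h1)
  have hPR : P.loc = R0 := hPl.trans hloc
  rw [← hPR] at hD0 hN1 hDm
  obtain ⟨g, hg, hg0⟩ := (H81.st_A6 L P D).1 hD0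
  have hg3 : tdeg g = 3 := by
    have h1 := (H81.st_A8 L P D g hg).1
    rw [hPd, hdg, hDd] at h1
    omega
  have hgo : ordn g = 1 := by
    have h1 := (H81.st_A7 L P D g hg hg0).1
    rw [hDm] at h1
    omega
  have htd : H27.TD 3 g := by
    have h1 := H27.td_tdeg g
    rwa [hg3] at h1
  have hEy : 0 < E.v P.y := by
    have h1 := H81.IsAdic.self hPE
    rw [ev_X] at h1
    omega
  have hE0' : Through P.loc E := by rw [hPl]; exact hE0
  obtain ⟨h10, h20⟩ := flex_coord hN1 hN2 hE0' hE1 hE2 hEy hD0 hD1 hD2 hg hg0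
  refine ⟨P, g, hPR, hPp.trans hpl, fun v => (hPd v).trans (hdg v), hPE, hg, htd, hg3, hg0, h10,
    h20, ?_, ?_⟩
  · obtain ⟨e, he, h1⟩ := H81.ordn_spec hg.1.ne_zero
    rw [hgo] at h1
    have h2 : e = (1, 0) ∨ e = (0, 1) := by
      rcases Nat.eq_zero_or_pos e.1 with h | h
      · right; exact Prod.ext (by dsimp only; omega) (by dsimp only; omega)
      · left; exact Prod.ext (by dsimp only; omega) (by dsimp only; omega)
    rcases h2 with h2 | h2
    · rw [h2] at he; exact absurd h10 he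
    · rwa [h2] at he
  · intro h30
    have h1 : (X : ℂ[X][X]) ∣ g := by
      rw [X_dvd_iff]
      refine Polynomial.ext fun i => ?_
      rw [coeff_zero]
      show cf g (i, 0) = 0
      by_contra hne
      have := htd _ hne
      have h2 : i = 0 ∨ i = 1 ∨ i = 2 ∨ i = 3 := by
        dsimp only at this
        omega
      rcases h2 with rfl | rfl | rfl | rfl
      · exact hne hg0
      · exact hne h10
      · exact hne h20
      · exact hne h30
    have h2 := H81.tdeg_associated X_ne_zero (irreducible_X.associated_of_dvd hg.1 h1)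
    rw [hg3] at h2
    have h3 := H27.tdeg_le td_X
    omega

/-- The constants of the Weierstrass form. -/
theorem wei_const {a0 a7 : ℂ} (h0 : a0 ≠ 0) (h7 : a7 ≠ 0) (a2 a4 a5 a8 a9 : ℂ) :
    ∃ m p q r A B : ℂ, m ≠ 0 ∧ a7 = -a0 * m ∧ a4 = -a0 * (2 * m * q) ∧ a8 = -a0 * (2 * m * r) ∧
      a2 = -a0 * (m * q ^ 2 - 3 * p) ∧ a5 = -a0 * (2 * m * q * r - 3 * p ^ 2 - A * m ^ 2) ∧
      a9 = -a0 * (m * r ^ 2 - p ^ 3 - A * p * m ^ 2 - B * m ^ 3) := by
  obtain ⟨m, hm⟩ : ∃ m, m = -a7 / a0 := ⟨_, rfl⟩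
  have hm0 : m ≠ 0 := by rw [hm]; exact div_ne_zero (neg_ne_zero.2 h7) h0
  have e7 : a7 = -a0 * m := by rw [hm]; field_simp
  obtain ⟨q, hq⟩ : ∃ q, q = a4 / (-a0 * (2 * m)) := ⟨_, rfl⟩
  obtain ⟨r, hr⟩ : ∃ r, r = a8 / (-a0 * (2 * m)) := ⟨_, rfl⟩
  have hd : -a0 * (2 * m) ≠ 0 := mul_ne_zero (neg_ne_zero.2 h0) (mul_ne_zero two_ne_zero hm0)
  have e4 : a4 = -a0 * (2 * m * q) := by
    rw [hq]; field_simp
  have e8 : a8 = -a0 * (2 * m * r) := by
    rw [hr]; field_simp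
  obtain ⟨p, hp⟩ : ∃ p, p = (m * q ^ 2 - a2 / (-a0)) / 3 := ⟨_, rfl⟩
  have h0' : -a0 ≠ 0 := neg_ne_zero.2 h0
  have e2 : a2 = -a0 * (m * q ^ 2 - 3 * p) := by
    have h1 : m * q ^ 2 - 3 * p = a2 / (-a0) := by rw [hp]; ring
    rw [h1, mul_div_cancel₀ _ h0']
  obtain ⟨A, hA⟩ : ∃ A, A = (2 * m * q * r - 3 * p ^ 2 - a5 / (-a0)) / m ^ 2 := ⟨_, rfl⟩
  have e5 : a5 = -a0 * (2 * m * q * r - 3 * p ^ 2 - A * m ^ 2) := by
    have h1 : 2 * m * q * r - 3 * p ^ 2 - A * m ^ 2 = a5 / (-a0) := by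
      rw [hA, div_mul_cancel₀ _ (pow_ne_zero _ hm0)]; ring
    rw [h1, mul_div_cancel₀ _ h0']
  obtain ⟨B, hB⟩ : ∃ B, B = (m * r ^ 2 - p ^ 3 - A * p * m ^ 2 - a9 / (-a0)) / m ^ 3 := ⟨_, rfl⟩
  have e9 : a9 = -a0 * (m * r ^ 2 - p ^ 3 - A * p * m ^ 2 - B * m ^ 3) := by
    have h1 : m * r ^ 2 - p ^ 3 - A * p * m ^ 2 - B * m ^ 3 = a9 / (-a0) := by
      rw [hB, div_mul_cancel₀ _ (pow_ne_zero _ hm0)]; ring
    rw [h1, mul_div_cancel₀ _ h0']
  exact ⟨m, p, q, r, A, B, hm0, e7, e4, e8, e2, e5, e9⟩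

/-- The Weierstrass form of a cubic at a flex. -/
theorem wei_form {g : ℂ[X][X]} (htd : H27.TD 3 g) (h00 : cf g (0, 0) = 0)
    (h10 : cf g (1, 0) = 0) (h20 : cf g (2, 0) = 0) (h01 : cf g (0, 1) ≠ 0)
    (h30 : cf g (3, 0) ≠ 0) : ∃ c m p q r A B : ℂ, c ≠ 0 ∧ m ≠ 0 ∧ ∀ u w : L,
      ev u w g = algebraMap ℂ L c * ((1 + algebraMap ℂ L q * u + algebraMap ℂ L r * w) ^ 2 *
        (algebraMap ℂ L m * w) - (u + algebraMap ℂ L p * w) ^ 3 -
        algebraMap ℂ L A * (u + algebraMap ℂ L p * w) * (algebraMap ℂ L m * w) ^ 2 -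
        algebraMap ℂ L B * (algebraMap ℂ L m * w) ^ 3) := by
  obtain ⟨m, p, q, r, A, B, hm, e7, e4, e8, e2, e5, e9⟩ := wei_const h30 h01 (cf g (2, 1))
    (cf g (1, 1)) (cf g (1, 2)) (cf g (0, 2)) (cf g (0, 3))
  refine ⟨-cf g (3, 0), m, p, q, r, A, B, neg_ne_zero.2 h30, hm, fun u w => ?_⟩
  rw [ev_cubic htd, h00, h10, h20]
  have f7 := congrArg (algebraMap ℂ L) e7
  have f4 := congrArg (algebraMap ℂ L) e4
  have f8 := congrArg (algebraMap ℂ L) e8
  have f2 := congrArg (algebraMap ℂ L) e2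
  have f5 := congrArg (algebraMap ℂ L) e5
  have f9 := congrArg (algebraMap ℂ L) e9
  simp only [map_mul, map_neg, map_sub, map_pow, map_ofNat] at f7 f4 f8 f2 f5 f9
  rw [f7, f4, f8, f2, f5, f9, map_neg, map_zero]
  ring

/-- Half of the equality of the local rings under a projective change of coordinates. -/
theorem half_mx (P : Coord L) (a b c d e : ℂ) :
    P.Mx ((algebraMap ℂ L a * P.x + algebraMap ℂ L b * P.y) /
      (algebraMap ℂ L 1 + algebraMap ℂ L c * P.x + algebraMap ℂ L d * P.y)) ∧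
    P.Mx (algebraMap ℂ L e * P.y /
      (algebraMap ℂ L 1 + algebraMap ℂ L c * P.x + algebraMap ℂ L d * P.y)) := by
  have h1 := H98.unit_of_mx one_ne_zero (H98.aff_mx P 1 c d)
  constructor
  · rw [div_eq_mul_inv]
    exact H98.mx_mul (H98.mx_add (H98.mx_mul' (P.loc.algebraMap_mem _) (H98.mx_x P))
      (H98.mx_mul' (P.loc.algebraMap_mem _) (H98.mx_y P))) h1.2.2
  · rw [div_eq_mul_inv]
    exact H98.mx_mul (H98.mx_mul' (P.loc.algebraMap_mem _) (H98.mx_y P)) h1.2.2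

end

end LCY74
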