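import Pool.Agent.Helper74.LY.T0E
import Pool.Agent.Helper26.LC.T0

/-!
Row T0PT of MP_f7e214_ag in the form used by the assembly.
-/

open Polynomial LCY

namespace LCY74

theorem st_T0PT (hC3 : ST_C3) : ST_T0PT := fun _ _ _ _ _ _ hA _ _ hk hS hz =>
  t0pt hC3 hA hk hS hz

end LCY74
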